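import Mathlib

/-!
# Simple random walk, windows, waiting time
-/

open MeasureTheory ProbabilityTheory Filter
open scoped ENNReal NNReal Topology

set_option linter.unusedSectionVars false
set_option warn.classDefReducibility false

namespace Pool.Agent.H96.BR

/-- `ξ 0, ξ 1, …` are i.i.d. signs: `P (ξ i = 1) = P (ξ i = -1) = 1/2`. -/
structure IsSigns {Ω : Type*} [MeasurableSpace Ω] (ξ : ℕ → Ω → ℤ) (P : Measure Ω) : Prop where
  meas : ∀ i, Measurable (ξ i)
  indep : iIndepFun ξ P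
  pos : ∀ i, P {ω | ξ i ω = 1} = 1 / 2
  neg : ∀ i, P {ω | ξ i ω = -1} = 1 / 2

/-- Simple random walk: `walk ξ k = ξ 0 + ⋯ + ξ (k-1)`. -/
def walk {Ω : Type*} (ξ : ℕ → Ω → ℤ) (k : ℕ) (ω : Ω) : ℤ := ∑ i ∈ Finset.range k, ξ i ω

variable {Ω : Type*} [mΩ : MeasurableSpace Ω] {ξ : ℕ → Ω → ℤ} {P : Measure Ω}

lemma IsSigns.prob (h : IsSigns ξ P) : IsProbabilityMeasure P := h.indep.isProbabilityMeasure

lemma IsSigns.ae_eq (h : IsSigns ξ P) (i : ℕ) : ∀ᵐ ω ∂P, ξ i ω = 1 ∨ ξ i ω = -1 := by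
  have := h.prob
  have h1 : MeasurableSet {ω | ξ i ω = 1} := h.meas i (measurableSet_singleton 1)
  have h2 : MeasurableSet {ω | ξ i ω = -1} := h.meas i (measurableSet_singleton (-1))
  have h3 : P ({ω | ξ i ω = 1} ∪ {ω | ξ i ω = -1}) = 1 := by
    rw [measure_union _ h2, h.pos, h.neg, ENNReal.add_halves]
    rw [Set.disjoint_left]
    intro ω hω hω'
    simp only [Set.mem_ofPred_eq] at hω hω'
    omega
  have h4 := (prob_compl_eq_zero_iff (h1.union h2)).mpr h3
  rw [ae_iff]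
  convert h4 using 2
  ext ω
  simp

lemma IsSigns.ae_all (h : IsSigns ξ P) : ∀ᵐ ω ∂P, ∀ i, ξ i ω = 1 ∨ ξ i ω = -1 :=
  ae_all_iff.mpr h.ae_eq

lemma IsSigns.integral_comp (h : IsSigns ξ P) (i : ℕ) {F : Type*} [NormedAddCommGroup F]
    [NormedSpace ℝ F] [CompleteSpace F] (f : ℤ → F) :
    ∫ ω, f (ξ i ω) ∂P = (1 / 2 : ℝ) • (f 1 + f (-1)) := by
  have := h.prob
  have h1 : MeasurableSet {ω | ξ i ω = 1} := h.meas i (measurableSet_singleton 1)
  have h2 : MeasurableSet {ω | ξ i ω = -1} := h.meas i (measurableSet_singleton (-1))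
  have h3 : (fun ω => f (ξ i ω)) =ᵐ[P] fun ω => Set.indicator {ω | ξ i ω = 1} (fun _ => f 1) ω
      + Set.indicator {ω | ξ i ω = -1} (fun _ => f (-1)) ω := by
    filter_upwards [h.ae_eq i] with ω hω
    rcases hω with hω | hω
    · have : ω ∉ {ω | ξ i ω = -1} := by simp [hω]
      rw [Set.indicator_of_mem (by exact hω), Set.indicator_of_notMem this, hω, add_zero]
    · have : ω ∉ {ω | ξ i ω = 1} := by simp [hω]
      rw [Set.indicator_of_notMem this, Set.indicator_of_mem (by exact hω), hω, zero_add]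
  rw [integral_congr_ae h3, integral_add, integral_indicator_const _ h1,
    integral_indicator_const _ h2, smul_add]
  · simp [measureReal_def, h.pos, h.neg]
  · exact (integrable_const _).indicator h1
  · exact (integrable_const _).indicator h2

/-- sigma-algebra generated by `ξ i`, `a ≤ i < b` -/
def F (ξ : ℕ → Ω → ℤ) (a b : ℕ) : MeasurableSpace Ω :=
  ⨆ i ∈ Set.Ico a b, MeasurableSpace.comap (ξ i) inferInstance

lemma F_le (hm : ∀ i, Measurable (ξ i)) (a b : ℕ) : F ξ a b ≤ mΩ :=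
  iSup₂_le fun i _ => (hm i).comap_le

lemma F_mono {a b a' b' : ℕ} (h1 : a' ≤ a) (h2 : b ≤ b') : F ξ a b ≤ F ξ a' b' :=
  biSup_mono fun _ hi => ⟨h1.trans hi.1, hi.2.trans_le h2⟩

lemma meas_F {a b i : ℕ} (h1 : a ≤ i) (h2 : i < b) : Measurable[F ξ a b] (ξ i) := by
  have h3 : MeasurableSpace.comap (ξ i) inferInstance ≤ F ξ a b :=
    le_iSup₂_of_le (f := fun i (_ : i ∈ Set.Ico a b) => MeasurableSpace.comap (ξ i) inferInstance)
      i ⟨h1, h2⟩ le_rfl
  exact fun s hs => h3 _ ⟨s, hs, rfl⟩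

lemma meas_sum_F (a b : ℕ) : Measurable[F ξ a b] (fun ω => ∑ i ∈ Finset.Ico a b, ξ i ω) := by
  refine @Finset.measurable_fun_sum ℤ ℕ Ω _ _ _ (F ξ a b) _ (Finset.Ico a b) fun i hi => ?_
  rw [Finset.mem_Ico] at hi
  exact meas_F hi.1 hi.2

lemma indep_F (h : iIndepFun ξ P) (hm : ∀ i, Measurable (ξ i)) {a b c d : ℕ} (hbc : b ≤ c) :
    Indep (F ξ a b) (F ξ c d) P := by
  have h1 : iIndep (fun i => MeasurableSpace.comap (ξ i) inferInstance) P := h.iIndep
  refine indep_iSup_of_disjoint (fun i => (hm i).comap_le) h1 ?_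
  rw [Set.disjoint_left]
  intro i hi hi'
  exact absurd (hi.2.trans_le (hbc.trans hi'.1)) (lt_irrefl _)

lemma block_iIndepFun {β : Type*} [MeasurableSpace β] (h : iIndepFun ξ P)
    (hm : ∀ i, Measurable (ξ i)) {e : ℕ → ℕ} (he : Monotone e) {Y : ℕ → Ω → β}
    (hY : ∀ j, Measurable[F ξ (e j) (e (j + 1))] (Y j)) : iIndepFun Y P := by
  have := h.isProbabilityMeasure
  rw [iIndepFun_iff_measure_inter_preimage_eq_mul]
  intro S
  induction S using Finset.induction_on_max with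
  | empty => intro s _; simp
  | insert a S ha ih =>
    intro s hs
    have haS : a ∉ S := fun hh => lt_irrefl _ (ha a hh)
    rw [Finset.prod_insert haS, Finset.set_biInter_insert, ← ih fun i hi => hs i
      (Finset.mem_insert_of_mem hi)]
    have h1 : MeasurableSet[F ξ (e a) (e (a + 1))] (Y a ⁻¹' s a) :=
      hY a (hs a (Finset.mem_insert_self a S))
    have h2 : MeasurableSet[F ξ 0 (e a)] (⋂ i ∈ S, Y i ⁻¹' s i) := by
      refine @Finset.measurableSet_biInter _ _ (F ξ 0 (e a)) _ S fun i hi => ?_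
      have h3 : MeasurableSet[F ξ (e i) (e (i + 1))] (Y i ⁻¹' s i) :=
        hY i (hs i (Finset.mem_insert_of_mem hi))
      exact F_mono (Nat.zero_le _) (he (ha i hi)) _ h3
    rw [Set.inter_comm, (Indep_iff _ _ _).mp (indep_F h hm le_rfl) _ _ h2 h1, mul_comm]

lemma IsSigns.shift (h : IsSigns ξ P) (s : ℕ) : IsSigns (fun i => ξ (s + i)) P where
  meas i := h.meas _
  indep := h.indep.precomp (g := fun i => s + i) fun a b hab => by simpa using hab
  pos i := h.pos _
  neg i := h.neg _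

lemma IsSigns.negate (h : IsSigns ξ P) : IsSigns (fun i ω => - ξ i ω) P where
  meas i := (h.meas _).neg
  indep := h.indep.comp (fun _ x => -x) fun _ => measurable_neg
  pos i := by
    rw [← h.neg i]; congr 1; ext ω; simp only [Set.mem_ofPred_eq]; omega
  neg i := by
    rw [← h.pos i]; congr 1; ext ω; simp only [Set.mem_ofPred_eq]; omega

omit mΩ in
lemma walk_shift (s k : ℕ) (ω : Ω) :
    walk (fun i => ξ (s + i)) k ω = walk ξ (s + k) ω - walk ξ s ω := by
  unfold walk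
  rw [Finset.sum_range_add]
  ring

omit mΩ in
lemma walk_neg (k : ℕ) (ω : Ω) : walk (fun i ω => - ξ i ω) k ω = - walk ξ k ω := by
  unfold walk
  simp

omit mΩ in
lemma walk_sub {a b : ℕ} (hab : a ≤ b) (ω : Ω) :
    walk ξ b ω - walk ξ a ω = ∑ i ∈ Finset.Ico a b, ξ i ω := by
  unfold walk
  rw [Finset.sum_Ico_eq_sub _ hab]

lemma measurable_walk (hm : ∀ i, Measurable (ξ i)) (k : ℕ) : Measurable (walk ξ k) := by
  unfold walk
  exact Finset.measurable_fun_sum _ fun i _ => hm i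

end Pool.Agent.H96.BR
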