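import Mathlib
import Pool.Agent.H96.BR.Walk

open MeasureTheory ProbabilityTheory Filter
open scoped ENNReal NNReal Topology

set_option linter.unusedSectionVars false

namespace Pool.Agent.H96.BR

variable {Ω : Type*} [mΩ : MeasurableSpace Ω] {ξ : ℕ → Ω → ℤ} {P : Measure Ω}

/-- natural filtration -/
def filt (hm : ∀ i, Measurable (ξ i)) : Filtration ℕ mΩ where
  seq k := F ξ 0 k
  mono' _ _ h := F_mono le_rfl h
  le' k := F_le hm 0 k

lemma meas_walk_F (k : ℕ) : Measurable[F ξ 0 k] (walk ξ k) := by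
  have h := meas_sum_F (ξ := ξ) 0 k
  have h2 : (fun ω => ∑ i ∈ Finset.Ico 0 k, ξ i ω) = walk ξ k := by
    ext ω; unfold walk; rw [Finset.range_eq_Ico]
  rwa [h2] at h

lemma integral_exp_sign (h : IsSigns ξ P) (i : ℕ) (θ : ℝ) :
    ∫ ω, Real.exp (θ * (ξ i ω : ℝ)) ∂P = Real.cosh θ := by
  rw [h.integral_comp i (fun z : ℤ => Real.exp (θ * (z : ℝ)))]
  rw [Real.cosh_eq]
  simp
  ring

lemma integrable_exp_walk (h : IsSigns ξ P) (k : ℕ) (θ : ℝ) :
    Integrable (fun ω => Real.exp (θ * (walk ξ k ω : ℝ))) P := by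
  have := h.prob
  refine Integrable.of_bound (C := Real.exp (|θ| * k)) ?_ ?_
  · have := measurable_walk h.meas k
    exact (by fun_prop : Measurable fun ω => Real.exp (θ * (walk ξ k ω : ℝ))).aestronglyMeasurable
  · filter_upwards [h.ae_all] with ω hω
    rw [Real.norm_of_nonneg (Real.exp_pos _).le]
    apply Real.exp_le_exp.mpr
    calc θ * (walk ξ k ω : ℝ) ≤ |θ * (walk ξ k ω : ℝ)| := le_abs_self _
      _ = |θ| * |(walk ξ k ω : ℝ)| := abs_mul _ _
      _ ≤ |θ| * k := by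
        gcongr
        unfold walk
        push_cast
        calc |∑ i ∈ Finset.range k, (ξ i ω : ℝ)| ≤ ∑ i ∈ Finset.range k, |(ξ i ω : ℝ)| :=
              Finset.abs_sum_le_sum_abs _ _
          _ ≤ ∑ i ∈ Finset.range k, (1 : ℝ) := by
              refine Finset.sum_le_sum fun i _ => ?_
              rcases hω i with h1 | h1 <;> simp [h1]
          _ = k := by simp

lemma integral_exp_walk (h : IsSigns ξ P) (k : ℕ) (θ : ℝ) :
    ∫ ω, Real.exp (θ * (walk ξ k ω : ℝ)) ∂P = Real.cosh θ ^ k := by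
  have := h.prob
  have h1 : iIndepFun (fun i ω => Real.exp (θ * (ξ i ω : ℝ))) P :=
    h.indep.comp (fun _ (z : ℤ) => Real.exp (θ * (z : ℝ))) fun _ => measurable_of_countable _
  have h2 : (fun ω => Real.exp (θ * (walk ξ k ω : ℝ)))
      = fun ω => ∏ i : Fin k, Real.exp (θ * (ξ i ω : ℝ)) := by
    ext ω
    unfold walk
    rw [← Real.exp_sum, ← Finset.mul_sum, Int.cast_sum, Fin.sum_univ_eq_sum_range
      (fun i => (ξ i ω : ℝ))]
  rw [h2]
  have h3 := (h1.precomp (g := fun i : Fin k => (i : ℕ)) Fin.val_injective)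
  rw [h3.integral_fun_prod_eq_prod_integral]
  · simp_rw [integral_exp_sign h]
    simp
  · intro i
    have := h.meas i
    exact (by fun_prop : Measurable fun ω => Real.exp (θ * (ξ i ω : ℝ))).aestronglyMeasurable

lemma submart (h : IsSigns ξ P) (θ : ℝ) :
    Submartingale (fun k ω => Real.exp (θ * (walk ξ k ω : ℝ))) (filt h.meas) P := by
  have := h.prob
  refine submartingale_nat ?_ (fun i => integrable_exp_walk h i θ) fun i => ?_
  · intro k
    have h1 : Measurable[F ξ 0 k] (fun ω => Real.exp (θ * (walk ξ k ω : ℝ))) :=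
      (measurable_of_countable (fun z : ℤ => Real.exp (θ * (z : ℝ)))).comp (meas_walk_F k)
    exact h1.stronglyMeasurable
  · have h1 : (fun ω => Real.exp (θ * (walk ξ (i + 1) ω : ℝ)))
        = (fun ω => Real.exp (θ * (walk ξ i ω : ℝ))) * fun ω => Real.exp (θ * (ξ i ω : ℝ)) := by
      ext ω
      simp only [Pi.mul_apply]
      rw [← Real.exp_add]
      congr 1
      unfold walk
      rw [Finset.sum_range_succ]
      push_cast
      ring
    have hsm : StronglyMeasurable[F ξ 0 i] (fun ω => Real.exp (θ * (walk ξ i ω : ℝ))) := by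
      have h1 : Measurable[F ξ 0 i] (fun ω => Real.exp (θ * (walk ξ i ω : ℝ))) :=
        (measurable_of_countable (fun z : ℤ => Real.exp (θ * (z : ℝ)))).comp (meas_walk_F i)
      exact h1.stronglyMeasurable
    have hsm2 : StronglyMeasurable[F ξ i (i + 1)] (fun ω => Real.exp (θ * (ξ i ω : ℝ))) := by
      have h1 : Measurable[F ξ i (i + 1)] (fun ω => Real.exp (θ * (ξ i ω : ℝ))) :=
        (measurable_of_countable (fun z : ℤ => Real.exp (θ * (z : ℝ)))).comp
          (meas_F le_rfl (Nat.lt_succ_self i))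
      exact h1.stronglyMeasurable
    have hi1 : Integrable (fun ω => Real.exp (θ * (ξ i ω : ℝ))) P := by
      have h2 := integrable_exp_walk (h.shift i) 1 θ
      refine h2.congr (Filter.Eventually.of_forall fun ω => ?_)
      simp [walk]
    have hc1 : P[fun ω => Real.exp (θ * (walk ξ (i + 1) ω : ℝ)) | F ξ 0 i] =ᵐ[P]
        (fun ω => Real.exp (θ * (walk ξ i ω : ℝ))) *
          P[fun ω => Real.exp (θ * (ξ i ω : ℝ)) | F ξ 0 i] := by
      rw [h1]
      refine condExp_mul_of_stronglyMeasurable_left hsm ?_ hi1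
      rw [← h1]
      exact integrable_exp_walk h (i + 1) θ
    have hc2 : P[fun ω => Real.exp (θ * (ξ i ω : ℝ)) | F ξ 0 i] =ᵐ[P]
        fun _ => ∫ ω, Real.exp (θ * (ξ i ω : ℝ)) ∂P :=
      condExp_indep_eq (F_le h.meas i (i + 1)) (F_le h.meas 0 i) hsm2
        (indep_F h.indep h.meas le_rfl).symm
    have hfi : (filt h.meas i : MeasurableSpace Ω) = F ξ 0 i := rfl
    rw [hfi]
    filter_upwards [hc1, hc2] with ω h3 h4
    rw [h3, Pi.mul_apply, h4, integral_exp_sign h]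
    have h5 := Real.one_le_cosh θ
    have h6 := Real.exp_pos (θ * (walk ξ i ω : ℝ))
    nlinarith

lemma measurableSet_max (h : IsSigns ξ P) (m : ℕ) (a : ℝ) :
    MeasurableSet {ω | ∃ k ≤ m, a ≤ (walk ξ k ω : ℝ)} := by
  have : {ω | ∃ k ≤ m, a ≤ (walk ξ k ω : ℝ)}
      = ⋃ k ∈ Finset.range (m + 1), {ω | a ≤ (walk ξ k ω : ℝ)} := by
    ext ω; simp
  rw [this]
  refine Finset.measurableSet_biUnion _ fun k _ => ?_
  have := measurable_walk h.meas k
  exact measurableSet_le measurable_const (by fun_prop)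

/-- maximal inequality, one sided -/
lemma max_ineq (h : IsSigns ξ P) {m : ℕ} (hm : 0 < m) {a : ℝ} (ha : 0 < a) :
    P {ω | ∃ k ≤ m, a ≤ (walk ξ k ω : ℝ)} ≤ ENNReal.ofReal (Real.exp (-(a ^ 2 / (2 * m)))) := by
  have := h.prob
  have hm' : (0 : ℝ) < m := by exact_mod_cast hm
  set θ : ℝ := a / m with hθ
  have hθ0 : 0 < θ := by positivity
  set ε : ℝ≥0 := (Real.exp (θ * a)).toNNReal with hε
  have hεr : (ε : ℝ) = Real.exp (θ * a) := Real.coe_toNNReal _ (Real.exp_pos _).le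
  have h1 := maximal_ineq (submart h θ) (fun k ω => (Real.exp_pos _).le) (ε := ε) m
  have hsub : {ω | ∃ k ≤ m, a ≤ (walk ξ k ω : ℝ)} ⊆
      {ω | (ε : ℝ) ≤ (Finset.range (m + 1)).sup' Finset.nonempty_range_add_one
        fun k => Real.exp (θ * (walk ξ k ω : ℝ))} := by
    rintro ω ⟨k, hk, hka⟩
    simp only [Set.mem_ofPred_eq]
    have h2 : (ε : ℝ) ≤ Real.exp (θ * (walk ξ k ω : ℝ)) := by
      rw [hεr]
      apply Real.exp_le_exp.mpr
      gcongr
    refine h2.trans ?_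
    exact Finset.le_sup' (f := fun k => Real.exp (θ * (walk ξ k ω : ℝ)))
      (Finset.mem_range.mpr (Nat.lt_succ_of_le hk))
  have h3 : (ε : ℝ≥0∞) * P {ω | ∃ k ≤ m, a ≤ (walk ξ k ω : ℝ)} ≤ ENNReal.ofReal (Real.cosh θ ^ m) := by
    calc (ε : ℝ≥0∞) * P {ω | ∃ k ≤ m, a ≤ (walk ξ k ω : ℝ)}
        ≤ ε * P {ω | (ε : ℝ) ≤ (Finset.range (m + 1)).sup' Finset.nonempty_range_add_one
            fun k => Real.exp (θ * (walk ξ k ω : ℝ))} := by gcongr
      _ ≤ _ := h1
      _ ≤ ENNReal.ofReal (∫ ω, Real.exp (θ * (walk ξ m ω : ℝ)) ∂P) := by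
          apply ENNReal.ofReal_le_ofReal
          exact setIntegral_le_integral (integrable_exp_walk h m θ)
            (Filter.Eventually.of_forall fun ω => (Real.exp_pos _).le)
      _ = _ := by rw [integral_exp_walk h]
  have h4 : Real.cosh θ ^ m ≤ Real.exp (m * (θ ^ 2 / 2)) := by
    calc Real.cosh θ ^ m ≤ (Real.exp (θ ^ 2 / 2)) ^ m := by
          gcongr
          exact Real.cosh_le_exp_half_sq θ
      _ = Real.exp (m * (θ ^ 2 / 2)) := by rw [← Real.exp_nat_mul]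
  have h5 : (ε : ℝ≥0∞) = ENNReal.ofReal (Real.exp (θ * a)) := rfl
  have h6 : P {ω | ∃ k ≤ m, a ≤ (walk ξ k ω : ℝ)}
      = ENNReal.ofReal (Real.exp (-(θ * a))) * ((ε : ℝ≥0∞) * P {ω | ∃ k ≤ m, a ≤ (walk ξ k ω : ℝ)}) := by
    rw [← mul_assoc, h5, ← ENNReal.ofReal_mul (Real.exp_pos _).le, ← Real.exp_add, neg_add_cancel,
      Real.exp_zero, ENNReal.ofReal_one, one_mul]
  rw [h6]
  calc _ ≤ ENNReal.ofReal (Real.exp (-(θ * a))) * ENNReal.ofReal (Real.exp (m * (θ ^ 2 / 2))) := by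
        gcongr
        exact h3.trans (ENNReal.ofReal_le_ofReal h4)
    _ = _ := by
        rw [← ENNReal.ofReal_mul (Real.exp_pos _).le, ← Real.exp_add]
        congr 2
        rw [hθ]
        field_simp
        ring

/-- maximal inequality, two sided -/
lemma max_ineq_abs (h : IsSigns ξ P) {m : ℕ} (hm : 0 < m) {a : ℝ} (ha : 0 < a) :
    P {ω | ∃ k ≤ m, a ≤ |(walk ξ k ω : ℝ)|}
      ≤ 2 * ENNReal.ofReal (Real.exp (-(a ^ 2 / (2 * m)))) := by
  have h1 := max_ineq h hm ha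
  have h2 := max_ineq h.negate hm ha
  have h3 : {ω | ∃ k ≤ m, a ≤ |(walk ξ k ω : ℝ)|} ⊆ {ω | ∃ k ≤ m, a ≤ (walk ξ k ω : ℝ)} ∪
      {ω | ∃ k ≤ m, a ≤ (walk (fun i ω => - ξ i ω) k ω : ℝ)} := by
    rintro ω ⟨k, hk, hka⟩
    rcases le_abs.mp hka with h4 | h4
    · exact Or.inl ⟨k, hk, h4⟩
    · refine Or.inr ⟨k, hk, ?_⟩
      rw [walk_neg]
      push_cast
      exact h4
  calc _ ≤ _ := measure_mono h3
    _ ≤ _ := measure_union_le _ _
    _ ≤ _ := by rw [two_mul]; exact add_le_add h1 h2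

/-- maximal inequality, two sided, shifted -/
lemma max_ineq_shift (h : IsSigns ξ P) (s : ℕ) {m : ℕ} (hm : 0 < m) {a : ℝ} (ha : 0 < a) :
    P {ω | ∃ k ≤ m, a ≤ |(walk ξ (s + k) ω : ℝ) - walk ξ s ω|}
      ≤ 2 * ENNReal.ofReal (Real.exp (-(a ^ 2 / (2 * m)))) := by
  have h1 := max_ineq_abs (h.shift s) hm ha
  refine le_trans (le_of_eq ?_) h1
  congr 1
  ext ω
  simp only [Set.mem_ofPred_eq]
  simp_rw [walk_shift]
  push_cast
  rfl

end Pool.Agent.H96.BR
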