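import Mathlib
import Pool.Agent.H96.BR.MaxIneq

open MeasureTheory ProbabilityTheory Filter
open scoped ENNReal NNReal Topology

set_option linter.unusedSectionVars false

namespace Pool.Agent.H96.BR

variable {Ω : Type*} [mΩ : MeasurableSpace Ω] {ξ : ℕ → Ω → ℤ} {P : Measure Ω}

/-- rescaled block increments -/
noncomputable def inc (ξ : ℕ → Ω → ℤ) (n M j : ℕ) (ω : Ω) : ℝ :=
  (√n)⁻¹ * ((walk ξ ((j + 1) * n / M) ω : ℝ) - walk ξ (j * n / M) ω)

lemma div_mono (n M : ℕ) {i j : ℕ} (h : i ≤ j) : i * n / M ≤ j * n / M :=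
  Nat.div_le_div_right (Nat.mul_le_mul_right _ h)

lemma inc_eq_sum (n M j : ℕ) (ω : Ω) :
    inc ξ n M j ω = (√n)⁻¹ * ∑ i ∈ Finset.Ico (j * n / M) ((j + 1) * n / M), (ξ i ω : ℝ) := by
  unfold inc
  congr 1
  rw [← Int.cast_sub, walk_sub (div_mono n M (Nat.le_succ j)), Int.cast_sum]

lemma measurable_inc (hm : ∀ i, Measurable (ξ i)) (n M j : ℕ) : Measurable (inc ξ n M j) := by
  unfold inc
  have h1 := measurable_walk hm ((j + 1) * n / M)
  have h2 := measurable_walk hm (j * n / M)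
  fun_prop

lemma indep_inc (h : IsSigns ξ P) (n M : ℕ) : iIndepFun (inc ξ n M) P := by
  refine block_iIndepFun h.indep h.meas (e := fun j => j * n / M) (fun i j hij => div_mono n M hij)
    fun j => ?_
  have h1 : Measurable[F ξ (j * n / M) ((j + 1) * n / M)]
      (fun ω => ∑ i ∈ Finset.Ico (j * n / M) ((j + 1) * n / M), ξ i ω) := meas_sum_F _ _
  have h2 : inc ξ n M j = (fun z : ℤ => (√n)⁻¹ * (z : ℝ)) ∘
      (fun ω => ∑ i ∈ Finset.Ico (j * n / M) ((j + 1) * n / M), ξ i ω) := by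
    ext ω
    rw [inc_eq_sum]
    simp
  rw [h2]
  exact (measurable_of_countable _).comp h1

lemma charFun_sign (h : IsSigns ξ P) (i : ℕ) (t : ℝ) :
    charFun (P.map fun ω => (ξ i ω : ℝ)) t = (Real.cos t : ℂ) := by
  have hm : Measurable (fun ω => (ξ i ω : ℝ)) := by have := h.meas i; fun_prop
  rw [charFun_apply_real, integral_map hm.aemeasurable (by fun_prop)]
  rw [h.integral_comp i (fun z : ℤ => Complex.exp (t * (z : ℝ) * Complex.I))]
  rw [Complex.ofReal_cos, Complex.cos]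
  simp
  ring

lemma charFun_inc (h : IsSigns ξ P) (n M j : ℕ) (t : ℝ) :
    charFun (P.map (inc ξ n M j)) t
      = ((Real.cos ((√n)⁻¹ * t) ^ ((j + 1) * n / M - j * n / M) : ℝ) : ℂ) := by
  have := h.prob
  have hm : ∀ i, Measurable (fun ω => (ξ i ω : ℝ)) := fun i => by have := h.meas i; fun_prop
  have hi : iIndepFun (fun i ω => (ξ i ω : ℝ)) P :=
    h.indep.comp (fun _ (z : ℤ) => (z : ℝ)) fun _ => measurable_of_countable _
  have h1 : inc ξ n M j = fun ω => (√n)⁻¹ *
      ∑ i ∈ Finset.Ico (j * n / M) ((j + 1) * n / M), (ξ i ω : ℝ) := by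
    ext ω; exact inc_eq_sum n M j ω
  rw [h1, charFun_map_mul_comp (Finset.measurable_fun_sum _ fun i _ => hm i).aemeasurable,
    (hi.restrict _).charFun_map_fun_finsetSum_eq_prod (fun i _ => (hm i).aemeasurable)]
  simp only [Finset.prod_apply, charFun_sign h, Finset.prod_const, Nat.card_Ico]
  push_cast
  rfl

lemma tendsto_div_nat (M j : ℕ) :
    Tendsto (fun n : ℕ => ((j * n / M : ℕ) : ℝ) / n) atTop (𝓝 ((j : ℝ) / M)) := by
  have h1 := (tendsto_nat_floor_mul_div_atTop (R := ℝ) (a := (j : ℝ) / M) (by positivity)).comp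
    (tendsto_natCast_atTop_atTop (R := ℝ))
  refine h1.congr fun n => ?_
  simp only [Function.comp_apply]
  congr 2
  rw [← Nat.floor_div_eq_div (K := ℝ)]
  congr 1
  push_cast
  ring

lemma tendsto_cos_pow (h : IsSigns ξ P) (t : ℝ) :
    Tendsto (fun n : ℕ => Real.cos ((√n)⁻¹ * t) ^ n) atTop (𝓝 (Real.exp (-t ^ 2 / 2))) := by
  have := h.prob
  have hm : Measurable (fun ω => (ξ 0 ω : ℝ)) := by have := h.meas 0; fun_prop
  have h1 := tendsto_charFun_inv_sqrt_mul_pow (P := P) (X := fun ω => (ξ 0 ω : ℝ)) hm.aemeasurable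
    ?_ ?_ t
  · simp_rw [charFun_sign h] at h1
    have h2 := (Complex.continuous_re.tendsto _).comp h1
    have e1 : (Complex.exp (-(t : ℂ) ^ 2 / 2)).re = Real.exp (-t ^ 2 / 2) := by
      rw [← Complex.ofReal_pow, ← Complex.ofReal_neg]
      have : (2 : ℂ) = ((2 : ℝ) : ℂ) := by simp
      rw [this, ← Complex.ofReal_div, ← Complex.ofReal_exp, Complex.ofReal_re]
    rw [e1] at h2
    refine h2.congr fun n => ?_
    simp only [Function.comp_apply]
    rw [← Complex.ofReal_pow, Complex.ofReal_re]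
  · have := h.integral_comp 0 (fun z : ℤ => (z : ℝ))
    rw [this]; simp
  · have := h.integral_comp 0 (fun z : ℤ => (z : ℝ) ^ 2)
    simp only [Pi.pow_apply]
    rw [this]; norm_num

lemma tendsto_charFun_inc (h : IsSigns ξ P) {M : ℕ} (hM : 0 < M) (j : ℕ) (t : ℝ) :
    Tendsto (fun n : ℕ => charFun (P.map (inc ξ n M j)) t) atTop
      (𝓝 (charFun (gaussianReal 0 (1 / (M : ℝ≥0))) t)) := by
  have hM' : (0 : ℝ) < M := by exact_mod_cast hM
  have h1 : Tendsto (fun n : ℕ => (((j + 1) * n / M - j * n / M : ℕ) : ℝ) / n) atTop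
      (𝓝 (1 / M)) := by
    have h2 := (tendsto_div_nat M (j + 1)).sub (tendsto_div_nat M j)
    have e1 : ((j + 1 : ℕ) : ℝ) / M - (j : ℝ) / M = 1 / M := by push_cast; ring
    rw [e1] at h2
    refine h2.congr fun n => ?_
    rw [Nat.cast_sub (div_mono n M (Nat.le_succ j))]
    ring
  have h3 := tendsto_cos_pow h t
  have h4 : Tendsto (fun n : ℕ => (Real.cos ((√n)⁻¹ * t) ^ n) ^
      ((((j + 1) * n / M - j * n / M : ℕ) : ℝ) / n)) atTop
      (𝓝 ((Real.exp (-t ^ 2 / 2)) ^ (1 / (M : ℝ)))) :=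
    h3.rpow h1 (Or.inl (Real.exp_pos _).ne')
  have h5 : (Real.exp (-t ^ 2 / 2)) ^ (1 / (M : ℝ)) = Real.exp (-(t ^ 2 / (2 * M))) := by
    rw [← Real.exp_mul]
    congr 1
    field_simp
  rw [h5] at h4
  have h6 : Tendsto (fun n : ℕ => (√n)⁻¹ * t) atTop (𝓝 0) := by
    rw [← zero_mul t]
    exact .mul_const t (tendsto_inv_atTop_zero.comp <| Real.tendsto_sqrt_atTop.comp <|
      tendsto_natCast_atTop_atTop)
  have h7 : ∀ᶠ n : ℕ in atTop, 0 < Real.cos ((√n)⁻¹ * t) := by
    have h8 := (Real.continuous_cos.tendsto 0).comp h6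
    rw [Real.cos_zero] at h8
    exact h8.eventually_const_lt one_pos
  have h9 : Tendsto (fun n : ℕ => Real.cos ((√n)⁻¹ * t) ^ ((j + 1) * n / M - j * n / M)) atTop
      (𝓝 (Real.exp (-(t ^ 2 / (2 * M))))) := by
    refine h4.congr' ?_
    filter_upwards [h7, eventually_gt_atTop 0] with n hn hn0
    rw [← Real.rpow_natCast, ← Real.rpow_mul hn.le, ← Real.rpow_natCast]
    congr 1
    have : (n : ℝ) ≠ 0 := by positivity
    field_simp
  have h10 : charFun (gaussianReal 0 (1 / (M : ℝ≥0))) t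
      = ((Real.exp (-(t ^ 2 / (2 * M))) : ℝ) : ℂ) := by
    rw [charFun_gaussianReal]
    push_cast
    congr 1
    ring
  rw [h10]
  refine Tendsto.congr (fun n => (charFun_inc h n M j t).symm) ?_
  exact (Complex.continuous_ofReal.tendsto _).comp h9

/-- law of the block increments -/
noncomputable def lawInc (h : IsSigns ξ P) (n M j : ℕ) : ProbabilityMeasure ℝ :=
  ⟨P.map (inc ξ n M j), by
    have := h.prob
    exact Measure.isProbabilityMeasure_map (measurable_inc h.meas n M j).aemeasurable⟩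

lemma tendsto_lawInc (h : IsSigns ξ P) {M : ℕ} (hM : 0 < M) (j : ℕ) :
    Tendsto (fun n => lawInc h n M j) atTop
      (𝓝 (⟨gaussianReal 0 (1 / (M : ℝ≥0)), inferInstance⟩ : ProbabilityMeasure ℝ)) :=
  ProbabilityMeasure.tendsto_iff_tendsto_charFun.2 fun t => tendsto_charFun_inc h hM j t

/-- law of the vector of block increments -/
noncomputable def lawVec (h : IsSigns ξ P) (n M K : ℕ) : ProbabilityMeasure (Fin K → ℝ) :=
  ⟨P.map (fun ω (j : Fin K) => inc ξ n M j ω), by
    have := h.prob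
    refine Measure.isProbabilityMeasure_map (Measurable.aemeasurable ?_)
    exact measurable_pi_lambda _ fun j => measurable_inc h.meas n M j⟩

/-- limit law -/
noncomputable def limVec (M K : ℕ) : ProbabilityMeasure (Fin K → ℝ) :=
  ProbabilityMeasure.pi fun _ : Fin K =>
    (⟨gaussianReal 0 (1 / (M : ℝ≥0)), inferInstance⟩ : ProbabilityMeasure ℝ)

lemma tendsto_lawVec (h : IsSigns ξ P) {M : ℕ} (hM : 0 < M) (K : ℕ) :
    Tendsto (fun n => lawVec h n M K) atTop (𝓝 (limVec M K)) := by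
  have := h.prob
  have h1 : ∀ n, lawVec h n M K = ProbabilityMeasure.pi fun j : Fin K => lawInc h n M j := by
    intro n
    apply ProbabilityMeasure.toMeasure_injective
    have h2 : iIndepFun (fun j : Fin K => inc ξ n M j) P :=
      (indep_inc h n M).precomp (g := fun j : Fin K => (j : ℕ)) Fin.val_injective
    exact h2.map_fun_eq_pi_map fun j => (measurable_inc h.meas n M j).aemeasurable
  simp_rw [h1]
  refine (ProbabilityMeasure.continuous_pi.tendsto _).comp ?_
  rw [tendsto_pi_nhds]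
  exact fun j => tendsto_lawInc h hM j

end Pool.Agent.H96.BR
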