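import Mathlib
import Pool.Agent.H96.BR.Grid

open MeasureTheory ProbabilityTheory Filter
open scoped ENNReal NNReal Topology

set_option linter.unusedSectionVars false

namespace Pool.Agent.H96.BR

/-- sum over the window `[i, i+M)` -/
noncomputable def win {K : ℕ} (i M : ℕ) (x : Fin K → ℝ) : ℝ :=
  ∑ j : Fin K, if i ≤ (j : ℕ) ∧ (j : ℕ) < i + M then x j else 0

lemma continuous_win {K : ℕ} (i M : ℕ) : Continuous (win (K := K) i M) := by
  unfold win
  refine continuous_finsetSum _ fun j _ => ?_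
  split_ifs
  · exact continuous_apply j
  · exact continuous_const

lemma win_nat {K i M : ℕ} (h : i + M ≤ K) (y : ℕ → ℝ) :
    win i M (fun j : Fin K => y j) = ∑ j ∈ Finset.Ico i (i + M), y j := by
  unfold win
  rw [Fin.sum_univ_eq_sum_range (fun j => if i ≤ j ∧ j < i + M then y j else 0) K,
    ← Finset.sum_filter]
  congr 1
  ext j
  simp only [Finset.mem_filter, Finset.mem_range, Finset.mem_Ico]
  omega

section walkside

variable {Ω : Type*} [mΩ : MeasurableSpace Ω] {ξ : ℕ → Ω → ℤ} {P : Measure Ω}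

lemma add_mul_div' (i n : ℕ) {M : ℕ} (hM : 0 < M) : (i + M) * n / M = i * n / M + n := by
  rw [add_mul, Nat.add_mul_div_left _ _ hM]

omit mΩ in
lemma win_inc {K i n M : ℕ} (hM : 0 < M) (h : i + M ≤ K) (ω : Ω) :
    win i M (fun j : Fin K => inc ξ n M j ω)
      = (√n)⁻¹ * ((walk ξ (i * n / M + n) ω : ℝ) - walk ξ (i * n / M) ω) := by
  rw [win_nat h (fun j => inc ξ n M j ω)]
  unfold inc
  rw [← Finset.mul_sum, Finset.sum_Ico_eq_sum_range]
  congr 1
  have h1 := Finset.sum_range_sub (fun j => (walk ξ ((i + j) * n / M) ω : ℝ)) M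
  simp only [add_zero] at h1
  rw [add_mul_div' i n hM] at h1
  rw [← h1, Nat.add_sub_cancel_left]
  refine Finset.sum_congr rfl fun j _ => ?_
  rw [add_assoc]

end walkside

variable {Ω' : Type*} [MeasurableSpace Ω'] {P' : Measure Ω'} {B : ℝ≥0 → Ω' → ℝ}

/-- block increments of Brownian motion -/
noncomputable def binc (B : ℝ≥0 → Ω' → ℝ) (M j : ℕ) (ω : Ω') : ℝ :=
  B (((j + 1 : ℕ) : ℝ≥0) / M) ω - B ((j : ℝ≥0) / M) ω

lemma sum_binc (M : ℕ) {a b : ℕ} (hab : a ≤ b) (ω : Ω') :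
    ∑ j ∈ Finset.Ico a b, binc B M j ω = B ((b : ℝ≥0) / M) ω - B ((a : ℝ≥0) / M) ω := by
  unfold binc
  rw [Finset.sum_Ico_eq_sum_range]
  have h1 := Finset.sum_range_sub (fun j => B (((a + j : ℕ) : ℝ≥0) / M) ω) (b - a)
  simp only [add_zero] at h1
  rw [Nat.add_sub_cancel' hab] at h1
  rw [← h1]
  refine Finset.sum_congr rfl fun j _ => ?_
  rw [add_assoc]

lemma win_binc {K i M : ℕ} (hM : 0 < M) (h : i + M ≤ K) (ω : Ω') :
    win i M (fun j : Fin K => binc B M j ω)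
      = B ((i : ℝ≥0) / M + 1) ω - B ((i : ℝ≥0) / M) ω := by
  rw [win_nat h (fun j => binc B M j ω), sum_binc M (Nat.le_add_right i M)]
  congr 2
  have : (M : ℝ≥0) ≠ 0 := by positivity
  push_cast
  field_simp

lemma aemeasurable_binc (hB : IsPreBrownianReal B P') (M j : ℕ) : AEMeasurable (binc B M j) P' := by
  have h1 := hB.aemeasurable (((j + 1 : ℕ) : ℝ≥0) / M)
  have h2 := hB.aemeasurable ((j : ℝ≥0) / M)
  exact h1.sub h2

lemma indep_binc (hB : IsPreBrownianReal B P') (M : ℕ) : iIndepFun (binc B M) P' := by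
  have h1 := hB.hasIndepIncrements.nat (t := fun j : ℕ => (j : ℝ≥0) / M) (fun i j hij => by
    simp only
    gcongr)
  exact h1

lemma law_diff (hB : IsPreBrownianReal B P') {M : ℕ} (hM : 0 < M) {a b : ℕ} (hab : a ≤ b) :
    HasLaw (fun ω => B ((b : ℝ≥0) / M) ω - B ((a : ℝ≥0) / M) ω)
      (gaussianReal 0 (((b - a : ℕ) : ℝ≥0) / M)) P' := by
  have h1 := hB.hasLaw_sub ((b : ℝ≥0) / M) ((a : ℝ≥0) / M)
  have h2 : nndist ((((b : ℝ≥0) / M : ℝ≥0)).1) ((((a : ℝ≥0) / M : ℝ≥0)).1)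
      = ((b - a : ℕ) : ℝ≥0) / M := by
    ext
    rw [coe_nndist, Real.dist_eq]
    have hM' : (0 : ℝ) < M := by exact_mod_cast hM
    have e1 : ((((b : ℝ≥0) / M : ℝ≥0)).1 : ℝ) = b / M := by
      change (((b : ℝ≥0) / M : ℝ≥0) : ℝ) = _
      push_cast; rfl
    have e2 : ((((a : ℝ≥0) / M : ℝ≥0)).1 : ℝ) = a / M := by
      change (((a : ℝ≥0) / M : ℝ≥0) : ℝ) = _
      push_cast; rfl
    rw [e1, e2, NNReal.coe_div, NNReal.coe_natCast, NNReal.coe_natCast, Nat.cast_sub hab]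
    have h4 : (a : ℝ) ≤ b := by exact_mod_cast hab
    have h3 : 0 ≤ ((b : ℝ) - a) / M := div_nonneg (by linarith) hM'.le
    rw [← sub_div, abs_of_nonneg h3]
  rw [h2] at h1
  exact h1

lemma law_binc (hB : IsPreBrownianReal B P') {M : ℕ} (hM : 0 < M) (j : ℕ) :
    HasLaw (binc B M j) (gaussianReal 0 (1 / (M : ℝ≥0))) P' := by
  have h1 := law_diff hB hM (Nat.le_succ j)
  have e : (((j.succ - j : ℕ) : ℝ≥0) / M) = 1 / (M : ℝ≥0) := by
    rw [Nat.succ_sub (le_refl j), Nat.sub_self]; simp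
  rw [e] at h1
  exact h1

lemma law_bvec (hB : IsPreBrownianReal B P') {M : ℕ} (hM : 0 < M) (K : ℕ) :
    P'.map (fun ω (j : Fin K) => binc B M j ω) = (limVec M K : Measure (Fin K → ℝ)) := by
  have h2 : iIndepFun (fun j : Fin K => binc B M j) P' :=
    (indep_binc hB M).precomp (g := fun j : Fin K => (j : ℕ)) Fin.val_injective
  have h3 := iIndepFun.map_fun_eq_pi_map (f := fun j : Fin K => binc B M j)
    (fun j => aemeasurable_binc hB M j) h2
  rw [h3]
  unfold limVec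
  rw [ProbabilityMeasure.toMeasure_pi]
  congr 1
  ext j : 1
  exact (law_binc hB hM j).map_eq

lemma aemeasurable_bvec (hB : IsPreBrownianReal B P') (M K : ℕ) :
    AEMeasurable (fun ω (j : Fin K) => binc B M j ω) P' :=
  aemeasurable_pi_lambda _ fun j => aemeasurable_binc hB M j

end Pool.Agent.H96.BR
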