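import Mathlib
import Pool.Agent.H96.BR.Brown

open MeasureTheory ProbabilityTheory Filter
open scoped ENNReal NNReal Topology

set_option linter.unusedSectionVars false

namespace Pool.Agent.H96.BR

lemma gaussPDF_le (x : ℝ) : gaussianPDF 0 (1 / 2) x ≤ 1 := by
  unfold gaussianPDF gaussianPDFReal
  rw [← ENNReal.ofReal_one]
  apply ENNReal.ofReal_le_ofReal
  have h1 : 1 ≤ √(2 * Real.pi * ((1 / 2 : ℝ≥0) : ℝ)) := by
    rw [Real.one_le_sqrt]
    push_cast
    have := Real.pi_gt_three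
    linarith
  have h2 : (√(2 * Real.pi * ((1 / 2 : ℝ≥0) : ℝ)))⁻¹ ≤ 1 := inv_le_one_of_one_le₀ h1
  have h3 : Real.exp (-(x - 0) ^ 2 / (2 * ((1 / 2 : ℝ≥0) : ℝ))) ≤ 1 := by
    apply Real.exp_le_one_iff.mpr
    apply div_nonpos_of_nonpos_of_nonneg
    · nlinarith [sq_nonneg (x - 0)]
    · positivity
  have h4 : 0 ≤ Real.exp (-(x - 0) ^ 2 / (2 * ((1 / 2 : ℝ≥0) : ℝ))) := (Real.exp_pos _).le
  exact mul_le_one₀ h2 h4 h3

lemma gauss_Icc_le (a b : ℝ) : gaussianReal 0 (1 / 2) (Set.Icc a b) ≤ ENNReal.ofReal (b - a) := by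
  rw [gaussianReal_apply 0 (by norm_num) (Set.Icc a b)]
  calc ∫⁻ x in Set.Icc a b, gaussianPDF 0 (1 / 2) x ≤ ∫⁻ x in Set.Icc a b, 1 :=
        lintegral_mono fun x => gaussPDF_le x
    _ = ENNReal.ofReal (b - a) := by
        rw [lintegral_const, one_mul, Measure.restrict_apply MeasurableSet.univ, Set.univ_inter,
          Real.volume_Icc]

variable {Ω' : Type*} [MeasurableSpace Ω'] {P' : Measure Ω'} {B : ℝ≥0 → Ω' → ℝ}

lemma conc [IsProbabilityMeasure P'] {G R : Ω' → ℝ} (hGR : IndepFun G R P')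
    (hG : HasLaw G (gaussianReal 0 (1 / 2)) P') (hR : AEMeasurable R P') (c c' : ℝ) :
    P' {ω | c ≤ G ω + R ω ∧ G ω + R ω ≤ c'} ≤ ENNReal.ofReal (c' - c) := by
  have h1 := (indepFun_iff_map_prod_eq_prod_map_map hG.aemeasurable hR).mp hGR
  have hS : MeasurableSet {p : ℝ × ℝ | c ≤ p.1 + p.2 ∧ p.1 + p.2 ≤ c'} := by
    have hm : Measurable (fun p : ℝ × ℝ => p.1 + p.2) := by fun_prop
    exact (measurableSet_le measurable_const hm).inter (measurableSet_le hm measurable_const)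
  have h2 : P' {ω | c ≤ G ω + R ω ∧ G ω + R ω ≤ c'}
      = (P'.map fun ω => (G ω, R ω)) {p : ℝ × ℝ | c ≤ p.1 + p.2 ∧ p.1 + p.2 ≤ c'} := by
    rw [Measure.map_apply_of_aemeasurable (hG.aemeasurable.prodMk hR) hS]
    rfl
  have : IsProbabilityMeasure (P'.map R) := Measure.isProbabilityMeasure_map hR
  rw [h2, h1, hG.map_eq, Measure.prod_apply_symm hS]
  calc ∫⁻ y, (gaussianReal 0 (1 / 2)) ((fun x => (x, y)) ⁻¹'
        {p : ℝ × ℝ | c ≤ p.1 + p.2 ∧ p.1 + p.2 ≤ c'}) ∂(P'.map R)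
      ≤ ∫⁻ y, ENNReal.ofReal (c' - c) ∂(P'.map R) := by
        refine lintegral_mono fun y => ?_
        have h3 : (fun x => (x, y)) ⁻¹' {p : ℝ × ℝ | c ≤ p.1 + p.2 ∧ p.1 + p.2 ≤ c'}
            = Set.Icc (c - y) (c' - y) := by
          ext x
          simp only [Set.mem_preimage, Set.mem_ofPred_eq, Set.mem_Icc]
          constructor
          · rintro ⟨h4, h5⟩; constructor <;> linarith
          · rintro ⟨h4, h5⟩; constructor <;> linarith
        rw [h3]
        refine (gauss_Icc_le _ _).trans (le_of_eq ?_)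
        congr 1; ring
    _ = ENNReal.ofReal (c' - c) := by rw [lintegral_const, measure_univ, mul_one]

/-- window sums of the increments of Brownian motion -/
noncomputable def Sw (B : ℝ≥0 → Ω' → ℝ) (M i : ℕ) (ω : Ω') : ℝ :=
  ∑ j ∈ Finset.Ico i (i + M), binc B M j ω

lemma anticonc (hB : IsPreBrownianReal B P') {N : ℕ} (hN : 0 < N) (J : ℕ) (c c' : ℝ) :
    P' {ω | (∀ i ≤ J, Sw B (2 * N) i ω ≤ c') ∧ ∃ i ≤ J, c ≤ Sw B (2 * N) i ω}
      ≤ ((J / N + 1 : ℕ) : ℝ≥0∞) * ENNReal.ofReal (c' - c) := by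
  classical
  have hprob : IsProbabilityMeasure P' := hB.isGaussianProcess.isProbabilityMeasure
  let Sq : ℕ → Finset ℕ := fun q => Finset.Ico (N * q + N) (N * q + 2 * N)
  let Tq : ℕ → Finset ℕ := fun q => (Finset.Ico (N * q) (N * q + 3 * N)) \ Sq q
  let G : ℕ → Ω' → ℝ := fun q ω => ∑ j ∈ Sq q, binc B (2 * N) j ω
  let I : ℕ → Finset ℕ := fun q => Finset.Icc (N * q) (min J (N * q + N))
  have hI : ∀ q, N * q ≤ J → (I q).Nonempty := fun q hq =>
    ⟨N * q, Finset.mem_Icc.mpr ⟨le_rfl, le_min hq (Nat.le_add_right _ _)⟩⟩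
  -- splitting a window sum
  have hsplit : ∀ q, ∀ i ∈ I q, ∀ ω, Sw B (2 * N) i ω = G q ω +
      ∑ j ∈ Tq q, if i ≤ j ∧ j < i + 2 * N then binc B (2 * N) j ω else 0 := by
    intro q i hi ω
    rw [Finset.mem_Icc] at hi
    have hi1 := hi.1
    have hi2 := hi.2.trans (min_le_right _ _)
    have hSsub : Sq q ⊆ Finset.Ico (N * q) (N * q + 3 * N) := by
      intro j hj
      simp only [Sq, Finset.mem_Ico] at hj ⊢
      omega
    have e1 : Sw B (2 * N) i ω = ∑ j ∈ Finset.Ico (N * q) (N * q + 3 * N),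
        if i ≤ j ∧ j < i + 2 * N then binc B (2 * N) j ω else 0 := by
      unfold Sw
      rw [← Finset.sum_filter]
      congr 1
      ext j
      simp only [Finset.mem_filter, Finset.mem_Ico]
      omega
    rw [e1, ← Finset.sum_sdiff hSsub, add_comm]
    congr 1
    refine Finset.sum_congr rfl fun j hj => ?_
    simp only [Sq, Finset.mem_Ico] at hj
    rw [if_pos]
    omega
  -- the events
  let E : ℕ → Set Ω' := fun q => {ω | (∀ i ∈ I q, Sw B (2 * N) i ω ≤ c') ∧
    ∃ i ∈ I q, c ≤ Sw B (2 * N) i ω}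
  have hsub : {ω | (∀ i ≤ J, Sw B (2 * N) i ω ≤ c') ∧ ∃ i ≤ J, c ≤ Sw B (2 * N) i ω}
      ⊆ ⋃ q ∈ Finset.range (J / N + 1), E q := by
    rintro ω ⟨h1, i, hi, h2⟩
    simp only [Set.mem_iUnion]
    have h3 : N * (i / N) ≤ i := Nat.mul_div_le i N
    have h4 : i < N * (i / N) + N := by
      have := Nat.lt_mul_div_succ i hN
      rw [mul_add, mul_one] at this
      exact this
    refine ⟨i / N, Finset.mem_range.mpr (Nat.lt_succ_of_le (Nat.div_le_div_right hi)), ?_, i, ?_, h2⟩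
    · intro i' hi'
      rw [Finset.mem_Icc] at hi'
      exact h1 i' (hi'.2.trans (min_le_left _ _))
    · rw [Finset.mem_Icc]
      exact ⟨h3, le_min hi h4.le⟩
  have hE : ∀ q ∈ Finset.range (J / N + 1), P' (E q) ≤ ENNReal.ofReal (c' - c) := by
    intro q hq
    rw [Finset.mem_range, Nat.lt_succ_iff] at hq
    have hqJ : N * q ≤ J := (Nat.mul_le_mul_left N hq).trans (Nat.mul_div_le J N)
    have hIq := hI q hqJ
    let φ : ((Sq q) → ℝ) → ℝ := fun x => ∑ j, x j
    let ψ : ((Tq q) → ℝ) → ℝ := fun x => (I q).sup' hIq fun i =>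
      ∑ j : Tq q, if i ≤ (j : ℕ) ∧ (j : ℕ) < i + 2 * N then x j else 0
    have hφ : Measurable φ := by fun_prop
    have hψ : Measurable ψ := by
      refine Continuous.measurable ?_
      refine Continuous.finset_sup'_apply hIq fun i _ => ?_
      refine continuous_finsetSum _ fun j _ => ?_
      split_ifs
      · exact continuous_apply j
      · exact continuous_const
    have hdisj : Disjoint (Sq q) (Tq q) := Finset.disjoint_sdiff
    have hind := ((indep_binc hB (2 * N)).indepFun_finset₀ (Sq q) (Tq q) hdisj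
      (fun j => aemeasurable_binc hB (2 * N) j)).comp hφ hψ
    set G' : Ω' → ℝ := φ ∘ fun a (i : Sq q) => binc B (2 * N) i a with hG'
    set R' : Ω' → ℝ := ψ ∘ fun a (i : Tq q) => binc B (2 * N) i a with hR'
    have hG'eq : G' = G q := by
      ext ω
      simp only [hG', Function.comp_apply, φ, G]
      rw [Finset.sum_coe_sort (Sq q) (fun j => binc B (2 * N) j ω)]
    have hR'eq : ∀ ω, R' ω = (I q).sup' hIq fun i =>
        ∑ j ∈ Tq q, if i ≤ j ∧ j < i + 2 * N then binc B (2 * N) j ω else 0 := by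
      intro ω
      simp only [hR', Function.comp_apply, ψ]
      congr 1
      ext i
      rw [Finset.sum_coe_sort (Tq q)
        (fun j => if i ≤ j ∧ j < i + 2 * N then binc B (2 * N) j ω else 0)]
    have hGlaw : HasLaw G' (gaussianReal 0 (1 / 2)) P' := by
      rw [hG'eq]
      have h5 : G q = fun ω => B (((N * q + 2 * N : ℕ) : ℝ≥0) / (2 * N : ℕ)) ω
          - B (((N * q + N : ℕ) : ℝ≥0) / (2 * N : ℕ)) ω := by
        ext ω
        exact sum_binc (2 * N) (by omega) ω
      rw [h5]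
      have h6 := law_diff hB (M := 2 * N) (by omega) (a := N * q + N) (b := N * q + 2 * N) (by omega)
      have h7 : (((N * q + 2 * N - (N * q + N) : ℕ) : ℝ≥0) / ((2 * N : ℕ) : ℝ≥0)) = 1 / 2 := by
        have e : N * q + 2 * N - (N * q + N) = N := by omega
        rw [e]
        have : (N : ℝ≥0) ≠ 0 := by positivity
        push_cast
        field_simp
      rw [h7] at h6
      exact h6
    have hRm : AEMeasurable R' P' :=
      hψ.comp_aemeasurable (aemeasurable_pi_lambda _ fun j => aemeasurable_binc hB (2 * N) j)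
    refine le_trans (measure_mono ?_) (conc hind hGlaw hRm c c')
    rintro ω ⟨h1, i, hi, h2⟩
    simp only [Set.mem_ofPred_eq]
    rw [hG'eq, hR'eq]
    constructor
    · rw [hsplit q i hi ω] at h2
      refine h2.trans ?_
      gcongr
      exact Finset.le_sup' (f := fun i => ∑ j ∈ Tq q, if i ≤ j ∧ j < i + 2 * N then
        binc B (2 * N) j ω else 0) hi
    · rw [← le_sub_iff_add_le']
      refine Finset.sup'_le _ _ fun i hi => ?_
      have := h1 i hi
      rw [hsplit q i hi ω] at this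
      linarith
  calc _ ≤ P' (⋃ q ∈ Finset.range (J / N + 1), E q) := measure_mono hsub
    _ ≤ ∑ q ∈ Finset.range (J / N + 1), P' (E q) := measure_biUnion_finset_le _ _
    _ ≤ ∑ q ∈ Finset.range (J / N + 1), ENNReal.ofReal (c' - c) := Finset.sum_le_sum hE
    _ = _ := by rw [Finset.sum_const, Finset.card_range, nsmul_eq_mul]

end Pool.Agent.H96.BR
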