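import Mathlib
import Pool.Agent.H96.BR.Conc

open MeasureTheory ProbabilityTheory Filter
open scoped ENNReal NNReal Topology

set_option linter.unusedSectionVars false

namespace Pool.Agent.H96.BR

/-- open set of vectors all of whose window sums are `< c` -/
def Aset (K M J : ℕ) (c : ℝ) : Set (Fin K → ℝ) := {x | ∀ i ≤ J, win i M x < c}

/-- closed set of vectors all of whose window sums are `≤ c` -/
def Cset (K M J : ℕ) (c : ℝ) : Set (Fin K → ℝ) := {x | ∀ i ≤ J, win i M x ≤ c}

lemma isOpen_Aset (K M J : ℕ) (c : ℝ) : IsOpen (Aset K M J c) := by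
  have : Aset K M J c = ⋂ i ∈ Finset.range (J + 1), {x | win i M x < c} := by
    ext x; simp [Aset]
  rw [this]
  exact isOpen_biInter_finset fun i _ => isOpen_lt (continuous_win i M) continuous_const

lemma isClosed_Cset (K M J : ℕ) (c : ℝ) : IsClosed (Cset K M J c) := by
  have : Cset K M J c = ⋂ i ∈ Finset.range (J + 1), {x | win i M x ≤ c} := by
    ext x; simp [Cset]
  rw [this]
  exact isClosed_biInter fun i _ => isClosed_le (continuous_win i M) continuous_const

variable {Ω : Type*} [mΩ : MeasurableSpace Ω] {ξ : ℕ → Ω → ℤ} {P : Measure Ω}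
variable {Ω' : Type*} [MeasurableSpace Ω'] {P' : Measure Ω'} {B : ℝ≥0 → Ω' → ℝ}

/-- `D_k = RW_{k+n} - RW_k` -/
def diff (ξ : ℕ → Ω → ℤ) (n k : ℕ) (ω : Ω) : ℤ := walk ξ (k + n) ω - walk ξ k ω

lemma lim_Aset (hB : IsPreBrownianReal B P') {M : ℕ} (hM : 0 < M) (J : ℕ) (c : ℝ) :
    (limVec M (J + M) : Measure (Fin (J + M) → ℝ)) (Aset (J + M) M J c)
      = P' {ω | ∀ i ≤ J, Sw B M i ω < c} := by
  rw [← law_bvec hB hM, Measure.map_apply_of_aemeasurable (aemeasurable_bvec hB M (J + M))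
    (isOpen_Aset _ _ _ _).measurableSet]
  congr 1
  ext ω
  simp only [Set.mem_preimage, Aset, Set.mem_ofPred_eq]
  refine forall₂_congr fun i hi => ?_
  rw [win_nat (by omega) (fun j => binc B M j ω)]
  rfl

lemma lim_Cset (hB : IsPreBrownianReal B P') {M : ℕ} (hM : 0 < M) (J : ℕ) (c : ℝ) :
    (limVec M (J + M) : Measure (Fin (J + M) → ℝ)) (Cset (J + M) M J c)
      = P' {ω | ∀ i ≤ J, Sw B M i ω ≤ c} := by
  rw [← law_bvec hB hM, Measure.map_apply_of_aemeasurable (aemeasurable_bvec hB M (J + M))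
    (isClosed_Cset _ _ _ _).measurableSet]
  congr 1
  ext ω
  simp only [Set.mem_preimage, Cset, Set.mem_ofPred_eq]
  refine forall₂_congr fun i hi => ?_
  rw [win_nat (by omega) (fun j => binc B M j ω)]
  rfl

lemma law_Aset (h : IsSigns ξ P) {M : ℕ} (hM : 0 < M) (J n : ℕ) (hn : 0 < n) (c : ℝ) :
    (lawVec h n M (J + M) : Measure (Fin (J + M) → ℝ)) (Aset (J + M) M J c)
      = P {ω | ∀ i ≤ J, (diff ξ n (i * n / M) ω : ℝ) < c * √n} := by
  have h1 : Measurable (fun ω (j : Fin (J + M)) => inc ξ n M j ω) :=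
    measurable_pi_lambda _ fun j => measurable_inc h.meas n M j
  unfold lawVec
  change (P.map (fun ω (j : Fin (J + M)) => inc ξ n M j ω)) _ = _
  rw [Measure.map_apply h1 (isOpen_Aset _ _ _ _).measurableSet]
  congr 1
  ext ω
  simp only [Set.mem_preimage, Aset, Set.mem_ofPred_eq]
  refine forall₂_congr fun i hi => ?_
  have hs : 0 < √(n : ℝ) := by positivity
  rw [win_inc hM (by omega), inv_mul_lt_iff₀ hs]
  unfold diff
  push_cast
  rw [mul_comm c]

lemma law_Cset (h : IsSigns ξ P) {M : ℕ} (hM : 0 < M) (J n : ℕ) (hn : 0 < n) (c : ℝ) :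
    (lawVec h n M (J + M) : Measure (Fin (J + M) → ℝ)) (Cset (J + M) M J c)
      = P {ω | ∀ i ≤ J, (diff ξ n (i * n / M) ω : ℝ) ≤ c * √n} := by
  have h1 : Measurable (fun ω (j : Fin (J + M)) => inc ξ n M j ω) :=
    measurable_pi_lambda _ fun j => measurable_inc h.meas n M j
  unfold lawVec
  change (P.map (fun ω (j : Fin (J + M)) => inc ξ n M j ω)) _ = _
  rw [Measure.map_apply h1 (isClosed_Cset _ _ _ _).measurableSet]
  congr 1
  ext ω
  simp only [Set.mem_preimage, Cset, Set.mem_ofPred_eq]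
  refine forall₂_congr fun i hi => ?_
  have hs : 0 < √(n : ℝ) := by positivity
  rw [win_inc hM (by omega), inv_mul_le_iff₀ hs]
  unfold diff
  push_cast
  rw [mul_comm c]

/-- probability that the window process stays below the level up to time `J n / M` -/
noncomputable def qn (ξ : ℕ → Ω → ℤ) (P : Measure Ω) (ℓ : ℕ → ℤ) (M J n : ℕ) : ℝ≥0∞ :=
  P {ω | ∀ k ≤ J * n / M, diff ξ n k ω < ℓ n}

lemma upper (h : IsSigns ξ P) (hB : IsPreBrownianReal B P') {ℓ : ℕ → ℤ} {l c : ℝ}
    (hl : Tendsto (fun n => (ℓ n : ℝ) / √n) atTop (𝓝 l)) (hc : l < c) {M : ℕ} (hM : 0 < M) (J : ℕ) :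
    limsup (fun n => qn ξ P ℓ M J n) atTop ≤ P' {ω | ∀ i ≤ J, Sw B M i ω ≤ c} := by
  rw [← lim_Cset hB hM J c]
  have h1 := ProbabilityMeasure.limsup_measure_closed_le_of_tendsto (tendsto_lawVec h hM (J + M))
    (isClosed_Cset (J + M) M J c)
  refine le_trans ?_ h1
  refine limsup_le_limsup ?_
  filter_upwards [hl.eventually_lt_const hc, eventually_gt_atTop 0] with n hn hn0
  rw [law_Cset h hM J n hn0 c]
  refine measure_mono fun ω hω i hi => ?_
  have h2 := hω (i * n / M) (div_mono n M hi)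
  have hs : 0 < √(n : ℝ) := by positivity
  rw [div_lt_iff₀ hs] at hn
  have h3 : (diff ξ n (i * n / M) ω : ℝ) < ℓ n := by exact_mod_cast h2
  linarith

/-- oscillation event -/
def Osc (ξ : ℕ → Ω → ℤ) (n m J M : ℕ) (a : ℝ) : Set Ω :=
  (⋃ i ∈ Finset.range (J + 1), {ω | ∃ k ≤ m, a ≤ |(walk ξ (i * n / M + k) ω : ℝ) - walk ξ (i * n / M) ω|})
  ∪ (⋃ i ∈ Finset.range (J + 1), {ω | ∃ k ≤ m,
      a ≤ |(walk ξ (i * n / M + n + k) ω : ℝ) - walk ξ (i * n / M + n) ω|})

lemma meas_Osc (h : IsSigns ξ P) (n : ℕ) {m : ℕ} (hm : 0 < m) (J M : ℕ) {a : ℝ} (ha : 0 < a) :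
    P (Osc ξ n m J M a) ≤ 4 * (J + 1 : ℕ) * ENNReal.ofReal (Real.exp (-(a ^ 2 / (2 * m)))) := by
  set e := ENNReal.ofReal (Real.exp (-(a ^ 2 / (2 * m)))) with he
  have h1 : ∀ g : ℕ → ℕ, P (⋃ i ∈ Finset.range (J + 1),
      {ω | ∃ k ≤ m, a ≤ |(walk ξ (g i + k) ω : ℝ) - walk ξ (g i) ω|}) ≤ (J + 1 : ℕ) * (2 * e) := by
    intro g
    calc _ ≤ ∑ i ∈ Finset.range (J + 1), P {ω | ∃ k ≤ m, a ≤ |(walk ξ (g i + k) ω : ℝ)
            - walk ξ (g i) ω|} := measure_biUnion_finset_le _ _
      _ ≤ ∑ i ∈ Finset.range (J + 1), 2 * e := Finset.sum_le_sum fun i _ =>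
          max_ineq_shift h (g i) hm ha
      _ = _ := by rw [Finset.sum_const, Finset.card_range, nsmul_eq_mul]
  calc P (Osc ξ n m J M a) ≤ (J + 1 : ℕ) * (2 * e) + (J + 1 : ℕ) * (2 * e) :=
        (measure_union_le _ _).trans (add_le_add (h1 fun i => i * n / M) (h1 fun i => i * n / M + n))
    _ = _ := by ring

lemma lower (h : IsSigns ξ P) (hB : IsPreBrownianReal B P') {ℓ : ℕ → ℤ} {l c ε : ℝ} (hε : 0 < ε)
    (hl : Tendsto (fun n => (ℓ n : ℝ) / √n) atTop (𝓝 l)) (hc : c + ε < l) {M : ℕ} (hM : 0 < M)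
    (J : ℕ) :
    P' {ω | ∀ i ≤ J, Sw B M i ω < c} ≤ liminf (fun n => qn ξ P ℓ M J n) atTop
      + 4 * (J + 1 : ℕ) * ENNReal.ofReal (Real.exp (-(ε ^ 2 * M / 16))) := by
  rw [← lim_Aset hB hM J c]
  have h1 := ProbabilityMeasure.le_liminf_measure_open_of_tendsto (tendsto_lawVec h hM (J + M))
    (isOpen_Aset (J + M) M J c)
  refine h1.trans ?_
  set o := 4 * (J + 1 : ℕ) * ENNReal.ofReal (Real.exp (-(ε ^ 2 * M / 16))) with ho
  have hotop : o ≠ ∞ := by rw [ho]; finiteness
  have h2 : ∀ᶠ n in atTop, (lawVec h n M (J + M) : Measure (Fin (J + M) → ℝ)) (Aset (J + M) M J c)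
      ≤ qn ξ P ℓ M J n + o := by
    filter_upwards [hl.eventually_const_lt hc, eventually_ge_atTop M, eventually_gt_atTop 0]
      with n hn hnM hn0
    rw [law_Aset h hM J n hn0 c]
    have hs : 0 < √(n : ℝ) := by positivity
    have hM' : (0 : ℝ) < M := by exact_mod_cast hM
    have hn0' : (0 : ℝ) < n := by exact_mod_cast hn0
    rw [lt_div_iff₀ hs] at hn
    set m := n / M + 1 with hm
    have hsub : {ω | ∀ i ≤ J, (diff ξ n (i * n / M) ω : ℝ) < c * √n}
        ⊆ {ω | ∀ k ≤ J * n / M, diff ξ n k ω < ℓ n} ∪ Osc ξ n m J M (ε * √n / 2) := by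
      intro ω hω
      by_cases hO : ω ∈ Osc ξ n m J M (ε * √n / 2)
      · exact Or.inr hO
      · refine Or.inl fun k hk => ?_
        simp only [Osc, Set.mem_union, Set.mem_iUnion, Set.mem_ofPred_eq, not_or, not_exists,
          not_and, not_le, Finset.mem_range] at hO
        obtain ⟨hO1, hO2⟩ := hO
        set i := k * M / n with hi
        have hkM : k * M ≤ J * n := by
          calc k * M ≤ (J * n / M) * M := Nat.mul_le_mul_right _ hk
            _ ≤ J * n := Nat.div_mul_le_self _ _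
        have hiJ : i ≤ J := by
          rw [hi]
          exact Nat.div_le_of_le_mul (by rw [mul_comm n J]; exact hkM)
        have hi1 : i * n / M ≤ k := by
          apply Nat.div_le_of_le_mul
          rw [mul_comm M k]
          exact Nat.div_mul_le_self _ _
        have hi2 : k ≤ (i + 1) * n / M := by
          rw [Nat.le_div_iff_mul_le hM]
          have := Nat.lt_mul_div_succ (k * M) hn0
          rw [mul_comm (i + 1) n]
          exact this.le
        have hi3 : (i + 1) * n / M ≤ i * n / M + m := by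
          rw [add_mul, one_mul, hm, Nat.add_div hM]
          split_ifs
          · exact le_of_eq (by ring)
          · exact Nat.add_le_add_left (Nat.le_succ _) _
        obtain ⟨r, hr⟩ : ∃ r, k = i * n / M + r := ⟨k - i * n / M, by omega⟩
        have hrm : r ≤ m := by omega
        have a1 := hO1 i (by omega) r hrm
        have a2 := hO2 i (by omega) r hrm
        have a3 := hω i hiJ
        have e1 : (diff ξ n k ω : ℝ) = (diff ξ n (i * n / M) ω : ℝ)
            + ((walk ξ (i * n / M + n + r) ω : ℝ) - walk ξ (i * n / M + n) ω)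
            - ((walk ξ (i * n / M + r) ω : ℝ) - walk ξ (i * n / M) ω) := by
          unfold diff
          rw [hr]
          push_cast
          rw [add_right_comm (i * n / M) r n]
          ring
        have a4 := abs_lt.mp a1
        have a5 := abs_lt.mp a2
        have : (diff ξ n k ω : ℝ) < ℓ n := by
          rw [e1]
          linarith [a4.1, a5.2]
        exact_mod_cast this
    have hosc : P (Osc ξ n m J M (ε * √n / 2)) ≤ o := by
      refine (meas_Osc h n (Nat.succ_pos _) J M (by positivity)).trans ?_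
      rw [ho]
      refine mul_le_mul_right (ENNReal.ofReal_le_ofReal (Real.exp_le_exp.mpr (neg_le_neg ?_))) _
      have hm2 : (m : ℝ) ≤ 2 * (n / M) := by
        have e1 : ((n / M : ℕ) : ℝ) ≤ n / M := Nat.cast_div_le
        have e2 : (1 : ℝ) ≤ n / M := by
          rw [le_div_iff₀ hM', one_mul]
          exact_mod_cast hnM
        rw [hm]
        push_cast
        linarith
      have hm0 : (0 : ℝ) < m := by rw [hm]; positivity
      rw [div_pow, mul_pow, Real.sq_sqrt hn0'.le, div_div, div_le_div_iff₀ (by positivity)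
        (by positivity)]
      have e3 : (m : ℝ) * M ≤ 2 * n := by
        calc (m : ℝ) * M ≤ (2 * (n / M)) * M := by gcongr
          _ = 2 * n := by field_simp
      nlinarith [mul_le_mul_of_nonneg_left e3 (sq_nonneg ε)]
    calc _ ≤ P _ := measure_mono hsub
      _ ≤ _ := measure_union_le _ _
      _ ≤ _ := add_le_add le_rfl hosc
  calc _ ≤ liminf (fun n => qn ξ P ℓ M J n + o) atTop := liminf_le_liminf h2
    _ ≤ _ := by
      rw [liminf_add_const atTop (fun n => qn ξ P ℓ M J n) o (by isBoundedDefault)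
        (by isBoundedDefault)]

end Pool.Agent.H96.BR
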