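import Mathlib
import Pool.Agent.H96.BR.Core1

open MeasureTheory ProbabilityTheory Filter
open scoped ENNReal NNReal Topology

set_option linter.unusedSectionVars false

namespace Pool.Agent.H96.BR

variable {Ω : Type*} [mΩ : MeasurableSpace Ω] {ξ : ℕ → Ω → ℤ} {P : Measure Ω}
variable {Ω' : Type*} [MeasurableSpace Ω'] {P' : Measure Ω'} {B : ℝ≥0 → Ω' → ℝ}

/-- the Slepian process -/
def slep (B : ℝ≥0 → Ω' → ℝ) (s : ℝ≥0) (ω : Ω') : ℝ := B (s + 1) ω - B s ω

lemma Sw_eq (M i : ℕ) (hM : 0 < M) (ω : Ω') : Sw B M i ω = slep B ((i : ℝ≥0) / M) ω := by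
  unfold Sw slep
  rw [sum_binc M (Nat.le_add_right i M)]
  congr 2
  have : (M : ℝ≥0) ≠ 0 := by positivity
  push_cast
  field_simp

lemma le_lt_anticonc (hB : IsPreBrownianReal B P') {N : ℕ} (hN : 0 < N) (J : ℕ) (c c' : ℝ) :
    P' {ω | ∀ i ≤ J, Sw B (2 * N) i ω ≤ c'} ≤ P' {ω | ∀ i ≤ J, Sw B (2 * N) i ω < c}
      + ((J / N + 1 : ℕ) : ℝ≥0∞) * ENNReal.ofReal (c' - c) := by
  have h1 : {ω | ∀ i ≤ J, Sw B (2 * N) i ω ≤ c'} ⊆ {ω | ∀ i ≤ J, Sw B (2 * N) i ω < c} ∪
      {ω | (∀ i ≤ J, Sw B (2 * N) i ω ≤ c') ∧ ∃ i ≤ J, c ≤ Sw B (2 * N) i ω} := by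
    intro ω hω
    by_cases h2 : ∀ i ≤ J, Sw B (2 * N) i ω < c
    · exact Or.inl h2
    · push Not at h2
      exact Or.inr ⟨hω, h2⟩
  exact (measure_mono h1).trans ((measure_union_le _ _).trans (add_le_add le_rfl
    (anticonc hB hN J c c')))

lemma nullMeasurable_Sw (hB : IsPreBrownianReal B P') (M J : ℕ) (c : ℝ) :
    NullMeasurableSet {ω | ∀ i ≤ J, Sw B M i ω < c} P' := by
  have : {ω | ∀ i ≤ J, Sw B M i ω < c} = ⋂ i ∈ Finset.range (J + 1), {ω | Sw B M i ω < c} := by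
    ext ω; simp
  rw [this]
  refine Finset.nullMeasurableSet_biInter _ fun i _ => ?_
  have hm : AEMeasurable (Sw B M i) P' := by
    unfold Sw
    exact Finset.aemeasurable_fun_sum _ fun j _ => aemeasurable_binc hB M j
  exact nullMeasurableSet_lt hm aemeasurable_const

lemma tendsto_o (a b : ℝ) (hb : 0 < b) (ha : 0 ≤ a) :
    Tendsto (fun k : ℕ => (a * 2 ^ k + 1) * Real.exp (-(b * 2 ^ k))) atTop (𝓝 0) := by
  have h1 : Tendsto (fun k : ℕ => b * (2 : ℝ) ^ k) atTop atTop :=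
    (tendsto_pow_atTop_atTop_of_one_lt (by norm_num)).const_mul_atTop hb
  have h2 := (Real.tendsto_pow_mul_exp_neg_atTop_nhds_zero 1).comp h1
  have h3 := (Real.tendsto_exp_neg_atTop_nhds_zero).comp h1
  have h4 := (h2.const_mul (a / b)).add h3
  simp only [mul_zero, add_zero] at h4
  refine h4.congr fun k => ?_
  simp only [Function.comp_apply, pow_one]
  field_simp

/-- events along the dyadic refinement -/
def Gk (B : ℝ≥0 → Ω' → ℝ) (M J : ℕ) (c : ℝ) (k : ℕ) : Set Ω' :=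
  {ω | ∀ i ≤ 2 * (2 ^ k * J), Sw B (2 * (2 ^ k * M)) i ω < c}

lemma Gk_anti (M J : ℕ) (hM : 0 < M) (c : ℝ) : Antitone (Gk B M J c) := by
  refine antitone_nat_of_succ_le fun k ω hω i hi => ?_
  have h1 := hω (2 * i) (by rw [pow_succ]; nlinarith)
  rw [Sw_eq _ _ (by positivity)] at h1 ⊢
  convert h1 using 2
  push_cast
  have : (M : ℝ≥0) ≠ 0 := by positivity
  rw [pow_succ]
  field_simp

lemma iInter_Gk (M J : ℕ) (hM : 0 < M) {c l : ℝ} (hc : c < l) {ω : Ω'}
    (hω : Continuous (B · ω)) (h : ω ∈ ⋂ k, Gk B M J c k) :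
    ∀ s : ℝ≥0, s ≤ (J : ℝ≥0) / M → slep B s ω < l := by
  intro s hs
  refine lt_of_le_of_lt ?_ hc
  have hM' : (M : ℝ≥0) ≠ 0 := by positivity
  have hM'' : (M : ℝ) ≠ 0 := by positivity
  have hs' : (s : ℝ) ≤ (J : ℝ) / M := by exact_mod_cast hs
  let i : ℕ → ℕ := fun k => ⌊(s : ℝ) * (2 * (2 ^ k * M) : ℕ)⌋₊
  have hi : ∀ k, i k ≤ 2 * (2 ^ k * J) := by
    intro k
    apply Nat.floor_le_of_le
    calc (s : ℝ) * ((2 * (2 ^ k * M) : ℕ) : ℝ) ≤ (J : ℝ) / M * ((2 * (2 ^ k * M) : ℕ) : ℝ) := by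
          gcongr
      _ = ((2 * (2 ^ k * J) : ℕ) : ℝ) := by push_cast; field_simp
  have hlim : Tendsto (fun k => ((i k : ℕ) : ℝ≥0) / ((2 * (2 ^ k * M) : ℕ) : ℝ≥0)) atTop (𝓝 s) := by
    rw [← NNReal.tendsto_coe]
    have h1 := tendsto_nat_floor_mul_div_atTop (R := ℝ) (a := (s : ℝ)) s.2
    have h2 : Tendsto (fun k : ℕ => ((2 * (2 ^ k * M) : ℕ) : ℝ)) atTop atTop := by
      refine tendsto_natCast_atTop_atTop.comp ?_
      have h3 : Tendsto (fun k : ℕ => 2 ^ k) atTop atTop :=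
        tendsto_pow_atTop_atTop_of_one_lt (by norm_num)
      refine tendsto_atTop_mono (fun k => ?_) h3
      nlinarith [Nat.one_le_iff_ne_zero.mpr hM.ne', Nat.one_le_two_pow (n := k)]
    refine (h1.comp h2).congr fun k => ?_
    rw [NNReal.coe_div, NNReal.coe_natCast, NNReal.coe_natCast]
    rfl
  have hcont : Continuous fun s : ℝ≥0 => slep B s ω := by
    unfold slep
    exact (hω.comp (continuous_add_const 1)).sub hω
  refine le_of_tendsto ((hcont.tendsto s).comp hlim) (Eventually.of_forall fun k => ?_)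
  have h4 := (Set.mem_iInter.mp h k) (i k) (hi k)
  rw [Sw_eq _ _ (by positivity)] at h4
  exact h4.le

lemma qn_scale (ℓ : ℕ → ℤ) (M J n : ℕ) {c : ℕ} (hc : 0 < c) :
    qn ξ P ℓ (c * M) (c * J) n = qn ξ P ℓ M J n := by
  unfold qn
  rw [mul_assoc c J n, Nat.mul_div_mul_left _ _ hc]

theorem tendsto_qn (h : IsSigns ξ P) (hB : IsBrownianReal B P') {ℓ : ℕ → ℤ} {l : ℝ}
    (hl : Tendsto (fun n => (ℓ n : ℝ) / √n) atTop (𝓝 l)) {M : ℕ} (hM : 0 < M) (J : ℕ) :
    Tendsto (fun n => qn ξ P ℓ M J n) atTop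
      (𝓝 (P' {ω | ∀ s : ℝ≥0, s ≤ (J : ℝ≥0) / M → slep B s ω < l})) := by
  have hprob : IsProbabilityMeasure P' := hB.isGaussianProcess.isProbabilityMeasure
  have hB' := hB.toIsPreBrownianReal
  set q := P' {ω | ∀ s : ℝ≥0, s ≤ (J : ℝ≥0) / M → slep B s ω < l} with hq
  set C : ℝ≥0∞ := ((2 * J / M + 1 : ℕ) : ℝ≥0∞) with hC
  have hCtop : C ≠ ∞ := ENNReal.natCast_ne_top _
  have hMk : ∀ k : ℕ, 0 < 2 ^ k * M := fun k => by positivity
  have hdiv : ∀ k : ℕ, 2 * (2 ^ k * J) / (2 ^ k * M) = 2 * J / M := fun k => by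
    rw [← mul_assoc, mul_comm 2 (2 ^ k), mul_assoc, Nat.mul_div_mul_left _ _ (by positivity)]
  have hscale : ∀ k : ℕ, qn ξ P ℓ (2 * (2 ^ k * M)) (2 * (2 ^ k * J)) = qn ξ P ℓ M J := fun k => by
    ext n
    rw [qn_scale _ _ _ _ (by norm_num), qn_scale _ _ _ _ (by positivity)]
  have hsmall : Tendsto (fun ε : ℝ => C * ENNReal.ofReal (2 * ε)) (𝓝[>] 0) (𝓝 0) := by
    have h1 : Tendsto (fun ε : ℝ => C * ENNReal.ofReal (2 * ε)) (𝓝 0)
        (𝓝 (C * ENNReal.ofReal (2 * 0))) := by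
      refine ENNReal.Tendsto.const_mul ?_ (Or.inr hCtop)
      exact (ENNReal.continuous_ofReal.tendsto _).comp ((continuous_const.mul continuous_id).tendsto 0)
    simp only [mul_zero, ENNReal.ofReal_zero] at h1
    exact h1.mono_left nhdsWithin_le_nhds
  -- upper bound
  have hupper : limsup (fun n => qn ξ P ℓ M J n) atTop ≤ q := by
    have h1 : ∀ ε : ℝ, 0 < ε → limsup (fun n => qn ξ P ℓ M J n) atTop
        ≤ q + C * ENNReal.ofReal (2 * ε) := by
      intro ε hε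
      have h2 : ∀ k : ℕ, limsup (fun n => qn ξ P ℓ M J n) atTop
          ≤ P' (Gk B M J (l - ε) k) + C * ENNReal.ofReal (2 * ε) := by
        intro k
        have h3 := upper h hB' hl (c := l + ε) (by linarith) (M := 2 * (2 ^ k * M))
          (by positivity) (2 * (2 ^ k * J))
        rw [hscale k] at h3
        refine h3.trans ?_
        have h4 := le_lt_anticonc hB' (hMk k) (2 * (2 ^ k * J)) (l - ε) (l + ε)
        rw [hdiv k] at h4
        have h5 : l + ε - (l - ε) = 2 * ε := by ring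
        rw [h5] at h4
        exact h4
      have h6 : Tendsto (fun k => P' (Gk B M J (l - ε) k)) atTop
          (𝓝 (P' (⋂ k, Gk B M J (l - ε) k))) :=
        tendsto_measure_iInter_atTop (fun k => nullMeasurable_Sw hB' _ _ _) (Gk_anti M J hM _)
          ⟨0, measure_ne_top _ _⟩
      have h7 : P' (⋂ k, Gk B M J (l - ε) k) ≤ q := by
        refine measure_mono_ae ?_
        filter_upwards [hB.cont] with ω hω hmem
        exact iInter_Gk M J hM (by linarith) hω hmem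
      have h8 := ge_of_tendsto' (h6.add_const (C * ENNReal.ofReal (2 * ε))) h2
      exact h8.trans (add_le_add h7 le_rfl)
    have h9 : Tendsto (fun ε : ℝ => q + C * ENNReal.ofReal (2 * ε)) (𝓝[>] 0) (𝓝 (q + 0)) :=
      tendsto_const_nhds.add hsmall
    rw [add_zero] at h9
    refine ge_of_tendsto h9 ?_
    filter_upwards [self_mem_nhdsWithin] with ε hε
    exact h1 ε hε
  -- lower bound
  have hlower : q ≤ liminf (fun n => qn ξ P ℓ M J n) atTop := by
    have h1 : ∀ ε : ℝ, 0 < ε → q ≤ liminf (fun n => qn ξ P ℓ M J n) atTop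
        + C * ENNReal.ofReal (2 * ε) := by
      intro ε hε
      set o : ℕ → ℝ≥0∞ := fun k => 4 * (2 * (2 ^ k * J) + 1 : ℕ) *
        ENNReal.ofReal (Real.exp (-(ε ^ 2 * (2 * (2 ^ k * M) : ℕ) / 16))) with ho
      have ho0 : Tendsto o atTop (𝓝 0) := by
        have h2 := tendsto_o (2 * J) (ε ^ 2 * (2 * M) / 16) (by positivity) (by positivity)
        have h3 := (ENNReal.continuous_ofReal.tendsto _).comp (h2.const_mul 4)
        simp only [mul_zero, ENNReal.ofReal_zero] at h3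
        refine h3.congr fun k => ?_
        have e1 : ((2 * (2 ^ k * J) + 1 : ℕ) : ℝ≥0∞) = ENNReal.ofReal (2 * J * 2 ^ k + 1) := by
          rw [← ENNReal.ofReal_natCast]
          congr 1
          push_cast; ring
        have e2 : -(ε ^ 2 * (2 * (2 ^ k * M) : ℕ) / 16) = -(ε ^ 2 * (2 * M) / 16 * 2 ^ k) := by
          push_cast; ring
        simp only [Function.comp_apply, ho]
        rw [e1, e2, ENNReal.ofReal_mul (by norm_num), ENNReal.ofReal_mul (by positivity),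
          ← mul_assoc, show ENNReal.ofReal 4 = 4 by norm_num]
      have h2 : ∀ k : ℕ, q ≤ liminf (fun n => qn ξ P ℓ M J n) atTop + o k
          + C * ENNReal.ofReal (2 * ε) := by
        intro k
        have h3 := lower h hB' hε hl (c := l - 2 * ε) (by linarith) (M := 2 * (2 ^ k * M))
          (by positivity) (2 * (2 ^ k * J))
        rw [hscale k] at h3
        have h4 := le_lt_anticonc hB' (hMk k) (2 * (2 ^ k * J)) (l - 2 * ε) l
        rw [hdiv k] at h4
        have h5 : l - (l - 2 * ε) = 2 * ε := by ring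
        rw [h5] at h4
        have h6 : q ≤ P' {ω | ∀ i ≤ 2 * (2 ^ k * J), Sw B (2 * (2 ^ k * M)) i ω ≤ l} := by
          refine measure_mono fun ω hω i hi => ?_
          rw [Sw_eq _ _ (by positivity)]
          refine (hω _ ?_).le
          have hM' : (M : ℝ≥0) ≠ 0 := by positivity
          calc (i : ℝ≥0) / ((2 * (2 ^ k * M) : ℕ) : ℝ≥0)
              ≤ ((2 * (2 ^ k * J) : ℕ) : ℝ≥0) / ((2 * (2 ^ k * M) : ℕ) : ℝ≥0) := by
                gcongr
            _ = (J : ℝ≥0) / M := by push_cast; field_simp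
        exact h6.trans (h4.trans (add_le_add h3 le_rfl))
      have h7 : Tendsto (fun k => liminf (fun n => qn ξ P ℓ M J n) atTop + o k
          + C * ENNReal.ofReal (2 * ε)) atTop (𝓝 (liminf (fun n => qn ξ P ℓ M J n) atTop + 0
          + C * ENNReal.ofReal (2 * ε))) := (tendsto_const_nhds.add ho0).add_const _
      rw [add_zero] at h7
      exact ge_of_tendsto' h7 h2
    have h9 : Tendsto (fun ε : ℝ => liminf (fun n => qn ξ P ℓ M J n) atTop
        + C * ENNReal.ofReal (2 * ε)) (𝓝[>] 0) (𝓝 (liminf (fun n => qn ξ P ℓ M J n) atTop + 0)) :=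
      tendsto_const_nhds.add hsmall
    rw [add_zero] at h9
    refine ge_of_tendsto h9 ?_
    filter_upwards [self_mem_nhdsWithin] with ε hε
    exact h1 ε hε
  exact tendsto_of_le_liminf_of_limsup_le hlower hupper

end Pool.Agent.H96.BR
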