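import Mathlib
import Pool.Agent.H96.BR.Core2

open MeasureTheory ProbabilityTheory Filter
open scoped ENNReal NNReal Topology

set_option linter.unusedSectionVars false

namespace Pool.Agent.H96.BR

/-- discrete intermediate value property -/
lemma ivt_lt {D : ℕ → ℤ} {ℓ : ℤ} (hpar : ∀ k, 2 ∣ D k - ℓ) (hstep : ∀ k, D (k + 1) ≤ D k + 2)
    {a b : ℕ} (hne : ∀ k, a ≤ k → k ≤ b → D k ≠ ℓ) (ha : D a < ℓ) :
    ∀ k, a ≤ k → k ≤ b → D k < ℓ := by
  intro k hk
  induction k, hk using Nat.le_induction with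
  | base => intro _; exact ha
  | succ k hk ih =>
    intro hkb
    have h1 := ih (by omega)
    have h2 := hstep k
    have h3 := hne (k + 1) (by omega) hkb
    have h4 := hpar k
    have h5 := hpar (k + 1)
    omega

variable {Ω : Type*} [mΩ : MeasurableSpace Ω] {ξ : ℕ → Ω → ℤ} {P : Measure Ω}

omit mΩ in
lemma diff_eq (n k : ℕ) (ω : Ω) : diff ξ n k ω = ∑ i ∈ Finset.Ico k (k + n), ξ i ω := by
  unfold diff
  rw [walk_sub (Nat.le_add_right k n)]

omit mΩ in
lemma diff_par {ω : Ω} (hω : ∀ i, ξ i ω = 1 ∨ ξ i ω = -1) (n k : ℕ) : 2 ∣ diff ξ n k ω - n := by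
  rw [diff_eq]
  have : ∑ i ∈ Finset.Ico k (k + n), ξ i ω - n = ∑ i ∈ Finset.Ico k (k + n), (ξ i ω - 1) := by
    rw [Finset.sum_sub_distrib]; simp
  rw [this]
  refine Finset.dvd_sum fun i _ => ?_
  rcases hω i with h | h <;> rw [h] <;> decide

omit mΩ in
lemma diff_step {ω : Ω} (hω : ∀ i, ξ i ω = 1 ∨ ξ i ω = -1) (n k : ℕ) :
    diff ξ n (k + 1) ω ≤ diff ξ n k ω + 2 ∧ diff ξ n k ω - 2 ≤ diff ξ n (k + 1) ω := by
  have h1 : diff ξ n (k + 1) ω = diff ξ n k ω + ξ (k + n) ω - ξ k ω := by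
    unfold diff walk
    rw [show k + 1 + n = (k + n) + 1 by ring, Finset.sum_range_succ, Finset.sum_range_succ]
    ring
  rcases hω (k + n) with h2 | h2 <;> rcases hω k with h3 | h3 <;> rw [h1, h2, h3] <;> omega

/-- on `±1` paths: no hit means always below or always above -/
lemma noHit_iff {ω : Ω} (hω : ∀ i, ξ i ω = 1 ∨ ξ i ω = -1) {n : ℕ} {ℓ : ℤ} (hpar : 2 ∣ ℓ - n)
    (K : ℕ) : (∀ k ≤ K, diff ξ n k ω ≠ ℓ) ↔
      ((∀ k ≤ K, diff ξ n k ω < ℓ) ∨ (∀ k ≤ K, ℓ < diff ξ n k ω)) := by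
  constructor
  · intro h
    rcases lt_or_gt_of_ne (h 0 (Nat.zero_le _)) with h1 | h1
    · left
      intro k hk
      refine ivt_lt (D := fun k => diff ξ n k ω) (a := 0) (b := K) (fun k => ?_)
        (fun k => (diff_step hω n k).1) (fun k _ hk => h k hk) h1 k (Nat.zero_le _) hk
      have := diff_par hω n k
      omega
    · right
      intro k hk
      have h2 := ivt_lt (D := fun k => - diff ξ n k ω) (ℓ := -ℓ) (a := 0) (b := K) (fun k => by
        have := diff_par hω n k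
        omega)
        (fun k => by have := (diff_step hω n k).2; omega)
        (fun k _ hk => by have := h k hk; omega) (by omega) k
        (Nat.zero_le _) hk
      omega
  · rintro (h | h) k hk
    · exact (h k hk).ne
    · exact (h k hk).ne'

lemma measurable_diff (hm : ∀ i, Measurable (ξ i)) (n k : ℕ) : Measurable (diff ξ n k) := by
  unfold diff
  exact (measurable_walk hm _).sub (measurable_walk hm _)

lemma charFun_walk (h : IsSigns ξ P) (n : ℕ) (t : ℝ) :
    charFun (P.map fun ω => (walk ξ n ω : ℝ)) t = ((Real.cos t ^ n : ℝ) : ℂ) := by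
  have := h.prob
  have hm : ∀ i, Measurable (fun ω => (ξ i ω : ℝ)) := fun i => by have := h.meas i; fun_prop
  have hi : iIndepFun (fun i ω => (ξ i ω : ℝ)) P :=
    h.indep.comp (fun _ (z : ℤ) => (z : ℝ)) fun _ => measurable_of_countable _
  have h1 : (fun ω => (walk ξ n ω : ℝ)) = fun ω => ∑ i ∈ Finset.range n, (ξ i ω : ℝ) := by
    ext ω; unfold walk; push_cast; rfl
  rw [h1, (hi.restrict _).charFun_map_fun_finsetSum_eq_prod (fun i _ => (hm i).aemeasurable)]
  simp only [Finset.prod_apply, charFun_sign h, Finset.prod_const, Finset.card_range]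
  push_cast
  rfl

lemma law_diff_eq (h : IsSigns ξ P) (n k : ℕ) :
    P.map (fun ω => (diff ξ n k ω : ℝ)) = P.map (fun ω => (walk ξ n ω : ℝ)) := by
  have := h.prob
  have h1 : (fun ω => (diff ξ n k ω : ℝ)) = fun ω => (walk (fun i => ξ (k + i)) n ω : ℝ) := by
    ext ω; rw [walk_shift]; rfl
  rw [h1]
  have hm1 := measurable_walk h.meas n
  have hm2 := measurable_walk (h.shift k).meas n
  have : IsProbabilityMeasure (P.map (fun ω => (walk ξ n ω : ℝ))) :=
    Measure.isProbabilityMeasure_map (by fun_prop)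
  have : IsProbabilityMeasure (P.map (fun ω => (walk (fun i => ξ (k + i)) n ω : ℝ))) :=
    Measure.isProbabilityMeasure_map (by fun_prop)
  apply Measure.ext_of_charFun
  ext t
  rw [charFun_walk h, charFun_walk (h.shift k)]

lemma prob_diff_lt (h : IsSigns ξ P) (n k : ℕ) (ℓ : ℤ) :
    P {ω | diff ξ n k ω < ℓ} = P {ω | diff ξ n 0 ω < ℓ} := by
  have hm : ∀ k, Measurable (fun ω => (diff ξ n k ω : ℝ)) := fun k => by
    have := measurable_diff h.meas n k; fun_prop
  have h1 : ∀ k, P {ω | diff ξ n k ω < ℓ} = (P.map fun ω => (diff ξ n k ω : ℝ)) (Set.Iio ℓ) := by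
    intro k
    rw [Measure.map_apply (hm k) measurableSet_Iio]
    congr 1; ext ω; simp
  rw [h1, h1, law_diff_eq h, law_diff_eq h]

lemma prob_diff_gt (h : IsSigns ξ P) (n k : ℕ) (ℓ : ℤ) :
    P {ω | ℓ < diff ξ n k ω} = P {ω | ℓ < diff ξ n 0 ω} := by
  have hm : ∀ k, Measurable (fun ω => (diff ξ n k ω : ℝ)) := fun k => by
    have := measurable_diff h.meas n k; fun_prop
  have h1 : ∀ k, P {ω | ℓ < diff ξ n k ω} = (P.map fun ω => (diff ξ n k ω : ℝ)) (Set.Ioi ℓ) := by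
    intro k
    rw [Measure.map_apply (hm k) measurableSet_Ioi]
    congr 1; ext ω; simp
  rw [h1, h1, law_diff_eq h, law_diff_eq h]

lemma meas_diff_F (n k : ℕ) : Measurable[F ξ k (k + n)] (diff ξ n k) := by
  have h := meas_sum_F (ξ := ξ) k (k + n)
  have h2 : (fun ω => ∑ i ∈ Finset.Ico k (k + n), ξ i ω) = diff ξ n k := by
    ext ω; rw [diff_eq]
  rwa [h2] at h

/-- geometric tail -/
lemma tail_bound (h : IsSigns ξ P) {n : ℕ} {ℓ : ℤ} (hpar : 2 ∣ ℓ - n) (j : ℕ) :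
    P {ω | ∀ k ≤ 2 * j * n, diff ξ n k ω ≠ ℓ}
      ≤ (1 - P {ω | diff ξ n 0 ω < ℓ} * P {ω | ℓ < diff ξ n 0 ω}) ^ j := by
  have hprob := h.prob
  let Y : ℕ → Ω → ℤ × ℤ := fun q ω => (diff ξ n (q * (2 * n)) ω, diff ξ n (q * (2 * n) + n) ω)
  let S : Set (ℤ × ℤ) := {p | p.1 < ℓ ∧ ℓ < p.2}
  have hS : MeasurableSet S := (Set.to_countable S).measurableSet
  have hY : ∀ q, Measurable[F ξ (q * (2 * n)) ((q + 1) * (2 * n))] (Y q) := by
    intro q
    have h1 : Measurable[F ξ (q * (2 * n)) ((q + 1) * (2 * n))] (diff ξ n (q * (2 * n))) := by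
      intro s hs
      exact F_mono le_rfl (by rw [add_mul]; omega) _ (meas_diff_F n (q * (2 * n)) hs)
    have h2 : Measurable[F ξ (q * (2 * n)) ((q + 1) * (2 * n))] (diff ξ n (q * (2 * n) + n)) := by
      intro s hs
      exact F_mono (by omega) (by rw [add_mul]; omega) _ (meas_diff_F n (q * (2 * n) + n) hs)
    exact h1.prodMk h2
  have hYm : ∀ q, Measurable (Y q) := fun q => (hY q).mono (F_le h.meas _ _) le_rfl
  have hind : iIndepFun Y P := block_iIndepFun h.indep h.meas (e := fun q => q * (2 * n))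
    (fun a b hab => Nat.mul_le_mul_right _ hab) hY
  have hPS : ∀ q, P (Y q ⁻¹' Sᶜ)
      = 1 - P {ω | diff ξ n 0 ω < ℓ} * P {ω | ℓ < diff ξ n 0 ω} := by
    intro q
    rw [Set.preimage_compl, prob_compl_eq_one_sub (hYm q hS)]
    congr 1
    have e1 : Y q ⁻¹' S = {ω | diff ξ n (q * (2 * n)) ω < ℓ}
        ∩ {ω | ℓ < diff ξ n (q * (2 * n) + n) ω} := by
      ext ω; rfl
    have m1 : MeasurableSet[F ξ (q * (2 * n)) (q * (2 * n) + n)]
        {ω | diff ξ n (q * (2 * n)) ω < ℓ} :=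
      meas_diff_F n (q * (2 * n)) (measurableSet_Iio (a := ℓ))
    have m2 : MeasurableSet[F ξ (q * (2 * n) + n) (q * (2 * n) + n + n)]
        {ω | ℓ < diff ξ n (q * (2 * n) + n) ω} :=
      meas_diff_F n (q * (2 * n) + n) (measurableSet_Ioi (a := ℓ))
    rw [e1, (Indep_iff _ _ _).mp (indep_F h.indep h.meas le_rfl) _ _ m1 m2,
      prob_diff_lt h n (q * (2 * n)), prob_diff_gt h n (q * (2 * n) + n)]
  have hsub : ∀ᵐ ω ∂P, ω ∈ {ω | ∀ k ≤ 2 * j * n, diff ξ n k ω ≠ ℓ} →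
      ω ∈ ⋂ q ∈ Finset.range j, Y q ⁻¹' Sᶜ := by
    filter_upwards [h.ae_all] with ω hω hmem
    simp only [Set.mem_iInter, Finset.mem_range]
    intro q hq hcon
    have hq' : q * (2 * n) + n ≤ 2 * j * n := by nlinarith
    have hcon' : diff ξ n (q * (2 * n)) ω < ℓ ∧ ℓ < diff ξ n (q * (2 * n) + n) ω := hcon
    have h3 := (noHit_iff hω hpar (2 * j * n)).mp hmem
    rcases h3 with h3 | h3
    · have := h3 _ hq'
      omega
    · have := h3 (q * (2 * n)) (by omega)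
      omega
  calc P {ω | ∀ k ≤ 2 * j * n, diff ξ n k ω ≠ ℓ} ≤ P (⋂ q ∈ Finset.range j, Y q ⁻¹' Sᶜ) :=
        measure_mono_ae hsub
    _ = ∏ q ∈ Finset.range j, P (Y q ⁻¹' Sᶜ) :=
        hind.measure_inter_preimage_eq_mul _ fun i _ => hS.compl
    _ = _ := by simp_rw [hPS]; rw [Finset.prod_const, Finset.card_range]

end Pool.Agent.H96.BR
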