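import Mathlib
import Pool.Agent.H96.BR.Disc

open MeasureTheory ProbabilityTheory Filter
open scoped ENNReal NNReal Topology

set_option linter.unusedSectionVars false

namespace Pool.Agent.H96.BR

/-- `F_λ = inf {t > 0 : B_{t+1} - B_t = λ}`, with value `∞` if there is no such `t`. -/
noncomputable def hitTime {Ω' : Type*} (B : ℝ≥0 → Ω' → ℝ) (l : ℝ) (ω : Ω') : ℝ≥0∞ :=
  ⨅ (t : ℝ≥0) (_ : 0 < t ∧ B (t + 1) ω - B t ω = l), (t : ℝ≥0∞)

variable {Ω : Type*} [mΩ : MeasurableSpace Ω] {ξ : ℕ → Ω → ℤ} {P : Measure Ω}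
variable {Ω' : Type*} [MeasurableSpace Ω'] {P' : Measure Ω'} {B : ℝ≥0 → Ω' → ℝ}

lemma continuous_slep {ω : Ω'} (hω : Continuous (B · ω)) : Continuous fun s : ℝ≥0 => slep B s ω := by
  unfold slep
  exact (hω.comp (continuous_add_const 1)).sub hω

lemma nullMeas_below (hB : IsBrownianReal B P') {M : ℕ} (hM : 0 < M) (J : ℕ) (l : ℝ) :
    NullMeasurableSet {ω | ∀ s : ℝ≥0, s ≤ (J : ℝ≥0) / M → slep B s ω < l} P' := by
  have h1 : NullMeasurableSet (⋃ r : ℕ, ⋂ k, Gk B M J (l - 1 / ((r : ℝ) + 1)) k) P' :=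
    NullMeasurableSet.iUnion fun r => NullMeasurableSet.iInter fun k =>
      nullMeasurable_Sw hB.toIsPreBrownianReal _ _ _
  refine h1.congr ?_
  filter_upwards [hB.cont] with ω hω
  apply propext
  constructor
  · intro h2
    obtain ⟨r, hr⟩ := Set.mem_iUnion.mp h2
    have hpos : (0 : ℝ) < 1 / ((r : ℝ) + 1) := by positivity
    exact iInter_Gk M J hM (by linarith) hω hr
  · intro h2
    have h2' : ∀ s : ℝ≥0, s ≤ (J : ℝ≥0) / M → slep B s ω < l := h2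
    have hK : IsCompact (Set.Icc (0 : ℝ≥0) ((J : ℝ≥0) / M)) := isCompact_Icc
    obtain ⟨s0, hs0, hmax⟩ := hK.exists_isMaxOn ⟨0, by simp⟩ (continuous_slep hω).continuousOn
    have h3 := h2' s0 hs0.2
    obtain ⟨r, hr⟩ := exists_nat_one_div_lt (show 0 < l - slep B s0 ω by linarith)
    refine Set.mem_iUnion.mpr ⟨r, Set.mem_iInter.mpr fun k => ?_⟩
    intro i hi
    rw [Sw_eq _ _ (by positivity)]
    have h4 : (i : ℝ≥0) / ((2 * (2 ^ k * M) : ℕ) : ℝ≥0) ≤ (J : ℝ≥0) / M := by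
      have hM' : (M : ℝ≥0) ≠ 0 := by positivity
      calc (i : ℝ≥0) / ((2 * (2 ^ k * M) : ℕ) : ℝ≥0)
          ≤ ((2 * (2 ^ k * J) : ℕ) : ℝ≥0) / ((2 * (2 ^ k * M) : ℕ) : ℝ≥0) := by
            gcongr
        _ = (J : ℝ≥0) / M := by push_cast; field_simp
    have h5 : slep B ((i : ℝ≥0) / ((2 * (2 ^ k * M) : ℕ) : ℝ≥0)) ω ≤ slep B s0 ω :=
      hmax ⟨zero_le, h4⟩
    linarith

lemma slep_neg (s : ℝ≥0) (ω : Ω') : slep (-B) s ω = - slep B s ω := by
  unfold slep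
  simp only [Pi.neg_apply]
  ring

lemma above_eq (t : ℝ≥0) (l : ℝ) : {ω | ∀ s : ℝ≥0, s ≤ t → l < slep B s ω}
    = {ω | ∀ s : ℝ≥0, s ≤ t → slep (-B) s ω < -l} := by
  ext ω
  simp only [Set.mem_ofPred_eq, slep_neg, neg_lt_neg_iff]

lemma nullMeas_above (hB : IsBrownianReal B P') {M : ℕ} (hM : 0 < M) (J : ℕ) (l : ℝ) :
    NullMeasurableSet {ω | ∀ s : ℝ≥0, s ≤ (J : ℝ≥0) / M → l < slep B s ω} P' := by
  rw [above_eq]
  exact nullMeas_below hB.neg hM J (-l)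

lemma law_slep_zero (hB : IsBrownianReal B P') :
    HasLaw (fun ω => slep B 0 ω) (gaussianReal 0 1) P' := by
  have h1 := law_diff hB.toIsPreBrownianReal (M := 1) one_pos (a := 0) (b := 1) (by norm_num)
  have e : (fun ω => slep B 0 ω) = fun ω => B (((1 : ℕ) : ℝ≥0) / ((1 : ℕ) : ℝ≥0)) ω
      - B (((0 : ℕ) : ℝ≥0) / ((1 : ℕ) : ℝ≥0)) ω := by
    ext ω; simp [slep]
  have h2 : gaussianReal 0 (((1 - 0 : ℕ) : ℝ≥0) / ((1 : ℕ) : ℝ≥0)) = gaussianReal 0 1 := by norm_num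
  rw [e, ← h2]
  exact h1

lemma ae_slep_zero_ne (hB : IsBrownianReal B P') (l : ℝ) : ∀ᵐ ω ∂P', slep B 0 ω ≠ l := by
  have h1 := law_slep_zero hB
  have h3 : P' {ω | slep B 0 ω = l} = 0 := by
    have h4 : {ω | slep B 0 ω = l} = (fun ω => slep B 0 ω) ⁻¹' {l} := rfl
    rw [h4, ← Measure.map_apply_of_aemeasurable h1.aemeasurable (measurableSet_singleton l),
      h1.map_eq]
    have : NullSingletonClass (gaussianReal 0 1) := nullSingletonClass_gaussianReal (by norm_num)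
    exact measure_singleton l
  rw [ae_iff]
  simpa using h3

lemma lt_hitTime_iff {ω : Ω'} (hω : Continuous (B · ω)) {l : ℝ} (h0 : slep B 0 ω ≠ l) (t : ℝ≥0) :
    (t : ℝ≥0∞) < hitTime B l ω ↔
      ((∀ s : ℝ≥0, s ≤ t → slep B s ω < l) ∨ (∀ s : ℝ≥0, s ≤ t → l < slep B s ω)) := by
  have hc := continuous_slep hω
  have h1 : (∀ s : ℝ≥0, s ≤ t → slep B s ω ≠ l) ↔
      ((∀ s : ℝ≥0, s ≤ t → slep B s ω < l) ∨ (∀ s : ℝ≥0, s ≤ t → l < slep B s ω)) := by
    constructor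
    · intro h
      rcases lt_or_gt_of_ne h0 with h2 | h2
      · left
        intro s hs
        by_contra hcon
        push Not at hcon
        have h3 : l ∈ (fun s : ℝ≥0 => slep B s ω) '' Set.Icc 0 s :=
          intermediate_value_Icc zero_le hc.continuousOn ⟨h2.le, hcon⟩
        obtain ⟨u, hu, hul⟩ := h3
        exact h u (hu.2.trans hs) hul
      · right
        intro s hs
        by_contra hcon
        push Not at hcon
        have h3 : l ∈ (fun s : ℝ≥0 => slep B s ω) '' Set.Icc 0 s :=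
          intermediate_value_Icc' zero_le hc.continuousOn ⟨hcon, h2.le⟩
        obtain ⟨u, hu, hul⟩ := h3
        exact h u (hu.2.trans hs) hul
    · rintro (h | h) s hs
      · exact (h s hs).ne
      · exact (h s hs).ne'
  rw [← h1]
  constructor
  · intro h s hs hsl
    have hs0 : 0 < s := by
      rcases eq_or_ne s 0 with rfl | h2
      · exact absurd hsl h0
      · exact pos_iff_ne_zero.mpr h2
    have h2 : hitTime B l ω ≤ s := iInf₂_le_of_le s ⟨hs0, hsl⟩ le_rfl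
    exact absurd (h.trans_le h2) (not_lt.mpr (by exact_mod_cast hs))
  · intro h
    -- an interval to the right of `t` without hits
    have h2 : ∀ᶠ s in 𝓝 t, slep B s ω ≠ l :=
      hc.continuousAt.eventually_ne (h t le_rfl)
    obtain ⟨ε, hε, hball⟩ := Metric.eventually_nhds_iff.mp h2
    have hε' : 0 < ε.toNNReal := Real.toNNReal_pos.mpr hε
    have h3 : ((t + ε.toNNReal / 2 : ℝ≥0) : ℝ≥0∞) ≤ hitTime B l ω := by
      refine le_iInf₂ fun s hs => ?_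
      by_contra hcon
      push Not at hcon
      have h4 : s < t + ε.toNNReal / 2 := by exact_mod_cast hcon
      rcases le_or_gt s t with h5 | h5
      · exact h s h5 hs.2
      · refine hball ?_ hs.2
        rw [NNReal.dist_eq, abs_of_pos (by simpa using h5)]
        have h6 : (s : ℝ) < t + ε / 2 := by
          have : ((s : ℝ≥0) : ℝ) < ((t + ε.toNNReal / 2 : ℝ≥0) : ℝ) := by exact_mod_cast h4
          rw [NNReal.coe_add, NNReal.coe_div, Real.coe_toNNReal _ hε.le] at this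
          exact this
        linarith
    refine lt_of_lt_of_le ?_ h3
    have : t < t + ε.toNNReal / 2 := lt_add_of_pos_right _ (by positivity)
    exact_mod_cast this

lemma prob_lt_hitTime (hB : IsBrownianReal B P') {M : ℕ} (hM : 0 < M) (J : ℕ) (l : ℝ) :
    NullMeasurableSet {ω | (((J : ℝ≥0) / M : ℝ≥0) : ℝ≥0∞) < hitTime B l ω} P' ∧
    P' {ω | (((J : ℝ≥0) / M : ℝ≥0) : ℝ≥0∞) < hitTime B l ω}
      = P' {ω | ∀ s : ℝ≥0, s ≤ (J : ℝ≥0) / M → slep B s ω < l}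
        + P' {ω | ∀ s : ℝ≥0, s ≤ (J : ℝ≥0) / M → slep (-B) s ω < -l} := by
  have h1 : {ω | (((J : ℝ≥0) / M : ℝ≥0) : ℝ≥0∞) < hitTime B l ω} =ᵐ[P']
      ({ω | ∀ s : ℝ≥0, s ≤ (J : ℝ≥0) / M → slep B s ω < l}
        ∪ {ω | ∀ s : ℝ≥0, s ≤ (J : ℝ≥0) / M → l < slep B s ω} : Set Ω') := by
    filter_upwards [hB.cont, ae_slep_zero_ne hB l] with ω hω h0
    exact propext (lt_hitTime_iff hω h0 _)
  refine ⟨((nullMeas_below hB hM J l).union (nullMeas_above hB hM J l)).congr h1.symm, ?_⟩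
  rw [measure_congr h1, measure_union₀ (nullMeas_above hB hM J l) ?_, above_eq]
  refine Disjoint.aedisjoint ?_
  rw [Set.disjoint_left]
  intro ω h2 h3
  have h4 := h2 0 zero_le
  have h5 := h3 0 zero_le
  linarith

/-- convergence of the no-hit probabilities -/
lemma tendsto_noHit (h : IsSigns ξ P) (hB : IsBrownianReal B P') {ℓ : ℕ → ℤ} {l : ℝ}
    (hl : Tendsto (fun n => (ℓ n : ℝ) / √n) atTop (𝓝 l)) (hpar : ∀ n : ℕ, 2 ∣ ℓ n - n)
    {M : ℕ} (hM : 0 < M) (J : ℕ) :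
    Tendsto (fun n => P {ω | ∀ k ≤ J * n / M, diff ξ n k ω ≠ ℓ n}) atTop
      (𝓝 (P' {ω | (((J : ℝ≥0) / M : ℝ≥0) : ℝ≥0∞) < hitTime B l ω})) := by
  rw [(prob_lt_hitTime hB hM J l).2]
  have hl' : Tendsto (fun n => ((-ℓ n : ℤ) : ℝ) / √n) atTop (𝓝 (-l)) := by
    refine hl.neg.congr fun n => ?_
    push_cast; ring
  have h1 := tendsto_qn h hB hl hM J
  have h2 := tendsto_qn h.negate hB.neg hl' hM J
  refine (h1.add h2).congr fun n => ?_
  unfold qn
  have e2 : {ω | ∀ k ≤ J * n / M, diff (fun i ω => - ξ i ω) n k ω < -ℓ n}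
      = {ω | ∀ k ≤ J * n / M, ℓ n < diff ξ n k ω} := by
    ext ω
    simp only [Set.mem_ofPred_eq]
    refine forall₂_congr fun k _ => ?_
    unfold diff
    rw [walk_neg, walk_neg]
    constructor <;> intro h3 <;> linarith
  have e3 : {ω | ∀ k ≤ J * n / M, diff ξ n k ω ≠ ℓ n} =ᵐ[P]
      ({ω | ∀ k ≤ J * n / M, diff ξ n k ω < ℓ n} ∪
        {ω | ∀ k ≤ J * n / M, ℓ n < diff ξ n k ω} : Set Ω) := by
    filter_upwards [h.ae_all] with ω hω
    exact propext (noHit_iff hω (hpar n) _)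
  have hm : MeasurableSet {ω | ∀ k ≤ J * n / M, ℓ n < diff ξ n k ω} := by
    have : {ω | ∀ k ≤ J * n / M, ℓ n < diff ξ n k ω}
        = ⋂ k ∈ Finset.range (J * n / M + 1), {ω | ℓ n < diff ξ n k ω} := by
      ext ω; simp
    rw [this]
    exact Finset.measurableSet_biInter _ fun k _ =>
      measurable_diff h.meas n k (measurableSet_Ioi (a := ℓ n))
  rw [e2, measure_congr e3, measure_union ?_ hm]
  rw [Set.disjoint_left]
  intro ω h2 h3
  have h4 := h2 0 (Nat.zero_le _)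
  have h5 := h3 0 (Nat.zero_le _)
  omega

/-- uniform geometric tail -/
lemma unif_tail (h : IsSigns ξ P) (hB : IsBrownianReal B P') {ℓ : ℕ → ℤ} {l : ℝ}
    (hl : Tendsto (fun n => (ℓ n : ℝ) / √n) atTop (𝓝 l)) (hpar : ∀ n : ℕ, 2 ∣ ℓ n - n) :
    ∃ ρ : ℝ≥0∞, ρ < 1 ∧ ∀ᶠ n in atTop, ∀ j, P {ω | ∀ k ≤ 2 * j * n, diff ξ n k ω ≠ ℓ n} ≤ ρ ^ j := by
  have hprob : IsProbabilityMeasure P' := hB.isGaussianProcess.isProbabilityMeasure
  have hprobP := h.prob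
  have hpos : ∀ (B : ℝ≥0 → Ω' → ℝ) (_ : IsBrownianReal B P') (l : ℝ),
      P' {ω | ∀ s : ℝ≥0, s ≤ ((0 : ℕ) : ℝ≥0) / ((1 : ℕ) : ℝ≥0) → slep B s ω < l} ≠ 0 := by
    intro B hB l
    have h1 := law_slep_zero hB
    have h4 : {ω | ∀ s : ℝ≥0, s ≤ ((0 : ℕ) : ℝ≥0) / ((1 : ℕ) : ℝ≥0) → slep B s ω < l}
        = (fun ω => slep B 0 ω) ⁻¹' (Set.Iio l) := by
      ext ω; simp
    rw [h4, ← Measure.map_apply_of_aemeasurable h1.aemeasurable measurableSet_Iio, h1.map_eq]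
    intro h5
    have h6 : (volume : Measure ℝ) (Set.Iio l) = 0 :=
      gaussianReal_absolutelyContinuous' 0 (by norm_num : (1 : ℝ≥0) ≠ 0) h5
    simp at h6
  have hl' : Tendsto (fun n => ((-ℓ n : ℤ) : ℝ) / √n) atTop (𝓝 (-l)) := by
    refine hl.neg.congr fun n => ?_
    push_cast; ring
  have h1 := tendsto_qn h hB hl one_pos 0
  have h2 := tendsto_qn h.negate hB.neg hl' one_pos 0
  set α := P' {ω | ∀ s : ℝ≥0, s ≤ ((0 : ℕ) : ℝ≥0) / ((1 : ℕ) : ℝ≥0) → slep B s ω < l} with hα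
  set β := P' {ω | ∀ s : ℝ≥0, s ≤ ((0 : ℕ) : ℝ≥0) / ((1 : ℕ) : ℝ≥0) → slep (-B) s ω < -l} with hβ
  have hα0 : α ≠ 0 := hpos B hB l
  have hβ0 : β ≠ 0 := hpos (-B) hB.neg (-l)
  have e1 : ∀ n, qn ξ P ℓ 1 0 n = P {ω | diff ξ n 0 ω < ℓ n} := by
    intro n; unfold qn; congr 1; ext ω; simp
  have e2 : ∀ n, qn (fun i ω => - ξ i ω) P (fun n => -ℓ n) 1 0 n = P {ω | ℓ n < diff ξ n 0 ω} := by
    intro n
    unfold qn
    congr 1
    ext ω
    simp only [zero_mul, Nat.zero_div, nonpos_iff_eq_zero, forall_eq, Set.mem_ofPred_eq]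
    unfold diff
    rw [walk_neg, walk_neg]
    constructor <;> intro h3 <;> linarith
  simp_rw [e1] at h1
  simp_rw [e2] at h2
  have h3 : Tendsto (fun n => P {ω | diff ξ n 0 ω < ℓ n} * P {ω | ℓ n < diff ξ n 0 ω}) atTop
      (𝓝 (α * β)) :=
    ENNReal.Tendsto.mul h1 (Or.inl hα0) h2 (Or.inl hβ0)
  have hαβ : α * β ≠ 0 := mul_ne_zero hα0 hβ0
  obtain ⟨c, hc0, hc⟩ := exists_between (pos_iff_ne_zero.mpr hαβ)
  refine ⟨1 - c, ?_, ?_⟩
  · refine ENNReal.sub_lt_self ENNReal.one_ne_top one_ne_zero hc0.ne'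
  · filter_upwards [h3.eventually_const_lt hc] with n hn j
    refine (tail_bound h (hpar n) j).trans ?_
    gcongr

end Pool.Agent.H96.BR
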