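import Mathlib
import Pool.Agent.H96.BR.Lim

open MeasureTheory ProbabilityTheory Filter
open scoped ENNReal NNReal Topology

set_option linter.unusedSectionVars false

namespace Pool.Agent.H96.BR

lemma count_lemma (x : ℝ≥0∞) :
    x ≤ ∑' j : ℕ, (if (j : ℝ≥0∞) < x then (1 : ℝ≥0∞) else 0) ∧
      ∑' j : ℕ, (if (j : ℝ≥0∞) < x then (1 : ℝ≥0∞) else 0) ≤ x + 1 := by
  rcases eq_or_ne x ∞ with rfl | hx
  · have h1 : ∑' j : ℕ, (if (j : ℝ≥0∞) < ∞ then (1 : ℝ≥0∞) else 0) = ∞ := by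
      have : ∀ j : ℕ, (if (j : ℝ≥0∞) < ∞ then (1 : ℝ≥0∞) else 0) = 1 := fun j => by
        simp
      simp_rw [this]
      exact ENNReal.tsum_const_eq_top_of_ne_zero one_ne_zero
    rw [h1]
    simp
  · lift x to ℝ≥0 using hx
    have h2 : ∑' j : ℕ, (if (j : ℝ≥0∞) < (x : ℝ≥0∞) then (1 : ℝ≥0∞) else 0) = (⌈x⌉₊ : ℝ≥0∞) := by
      rw [tsum_eq_sum (s := Finset.range ⌈x⌉₊)]
      · rw [Finset.sum_congr rfl (g := fun _ => (1 : ℝ≥0∞))]
        · simp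
        · intro j hj
          rw [Finset.mem_range, Nat.lt_ceil] at hj
          rw [if_pos]
          exact_mod_cast hj
      · intro j hj
        rw [Finset.mem_range, Nat.lt_ceil] at hj
        rw [if_neg]
        intro hcon
        exact hj (by exact_mod_cast hcon)
    rw [h2]
    constructor
    · exact_mod_cast Nat.le_ceil x
    · have := (Nat.ceil_lt_add_one (zero_le (a := x))).le
      exact_mod_cast this

lemma lintegral_count_bounds {α : Type*} [MeasurableSpace α] {m : Measure α} [IsProbabilityMeasure m]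
    (X : α → ℝ≥0∞) (hX : ∀ j : ℕ, NullMeasurableSet {a | (j : ℝ≥0∞) < X a} m) :
    ∫⁻ a, X a ∂m ≤ ∑' j : ℕ, m {a | (j : ℝ≥0∞) < X a} ∧
      ∑' j : ℕ, m {a | (j : ℝ≥0∞) < X a} ≤ ∫⁻ a, X a ∂m + 1 := by
  classical
  have h1 : ∫⁻ a, ∑' j : ℕ, (if (j : ℝ≥0∞) < X a then (1 : ℝ≥0∞) else 0) ∂m
      = ∑' j : ℕ, m {a | (j : ℝ≥0∞) < X a} := by
    rw [lintegral_tsum]
    · refine tsum_congr fun j => ?_
      have h2 : (fun a => if (j : ℝ≥0∞) < X a then (1 : ℝ≥0∞) else 0)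
          = Set.indicator {a | (j : ℝ≥0∞) < X a} 1 := by
        ext a; simp [Set.indicator_apply]
      rw [h2, lintegral_indicator_one₀ (hX j)]
    · intro j
      have h2 : (fun a => if (j : ℝ≥0∞) < X a then (1 : ℝ≥0∞) else 0)
          = Set.indicator {a | (j : ℝ≥0∞) < X a} 1 := by
        ext a; simp [Set.indicator_apply]
      rw [h2]
      exact (aemeasurable_indicator_iff₀ (hX j)).mpr aemeasurable_const
  constructor
  · rw [← h1]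
    exact lintegral_mono fun a => (count_lemma (X a)).1
  · rw [← h1]
    calc _ ≤ ∫⁻ a, (X a + 1) ∂m := lintegral_mono fun a => (count_lemma (X a)).2
      _ = ∫⁻ a, X a ∂m + 1 := by
        rw [lintegral_add_right _ measurable_const, lintegral_const, measure_univ, mul_one]

variable {Ω : Type*} [mΩ : MeasurableSpace Ω] {ξ : ℕ → Ω → ℤ} {P : Measure Ω}
variable {Ω' : Type*} [MeasurableSpace Ω'] {P' : Measure Ω'} {B : ℝ≥0 → Ω' → ℝ}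

/-- index of the first hit -/
noncomputable def kap (ξ : ℕ → Ω → ℤ) (ℓ : ℕ → ℤ) (n : ℕ) (ω : Ω) : ℝ≥0∞ :=
  ⨅ (k : ℕ) (_ : diff ξ n k ω = ℓ n), (k : ℝ≥0∞)

omit mΩ in
lemma lt_kap_iff (ℓ : ℕ → ℤ) (n N : ℕ) (ω : Ω) :
    (N : ℝ≥0∞) < kap ξ ℓ n ω ↔ ∀ k ≤ N, diff ξ n k ω ≠ ℓ n := by
  constructor
  · intro h k hk hcon
    have h1 : kap ξ ℓ n ω ≤ k := iInf₂_le_of_le k hcon le_rfl
    exact absurd (h.trans_le h1) (not_lt.mpr (by exact_mod_cast hk))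
  · intro h
    have h1 : ((N + 1 : ℕ) : ℝ≥0∞) ≤ kap ξ ℓ n ω := by
      refine le_iInf₂ fun k hk => ?_
      by_contra hcon
      push Not at hcon
      have h2 : k < N + 1 := by exact_mod_cast hcon
      exact h k (Nat.lt_succ_iff.mp h2) hk
    refine lt_of_lt_of_le ?_ h1
    exact_mod_cast Nat.lt_succ_self N

omit mΩ in
lemma lt_kap_iff' (ℓ : ℕ → ℤ) {n m : ℕ} (hn : 0 < n) (hm : 0 < m) (j : ℕ) (ω : Ω) :
    (j : ℝ≥0∞) < kap ξ ℓ n ω * m / n ↔ ∀ k ≤ j * n / m, diff ξ n k ω ≠ ℓ n := by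
  rw [← lt_kap_iff]
  have hn' : (n : ℝ≥0∞) ≠ 0 := by exact_mod_cast hn.ne'
  have hm' : (m : ℝ≥0∞) ≠ 0 := by exact_mod_cast hm.ne'
  rw [ENNReal.lt_div_iff_mul_lt (Or.inl hn') (Or.inl (ENNReal.natCast_ne_top n))]
  rcases eq_or_ne (kap ξ ℓ n ω) ∞ with h | h
  · rw [h, ENNReal.top_mul hm']
    constructor
    · intro _; exact ENNReal.natCast_lt_top _
    · intro _; exact_mod_cast ENNReal.natCast_lt_top (j * n)
  · obtain ⟨k, hk⟩ : ∃ k : ℕ, kap ξ ℓ n ω = k := by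
      have h1 : ∃ k, diff ξ n k ω = ℓ n := by
        by_contra hcon
        push Not at hcon
        apply h
        unfold kap
        simp [hcon]
      refine ⟨Nat.find h1, le_antisymm ?_ ?_⟩
      · exact iInf₂_le_of_le (Nat.find h1) (Nat.find_spec h1) le_rfl
      · refine le_iInf₂ fun k hk => ?_
        exact_mod_cast Nat.find_min' h1 hk
    rw [hk]
    have e1 : ((j : ℝ≥0∞) * n < (k : ℝ≥0∞) * m) ↔ j * n < k * m := by
      constructor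
      · intro h; exact_mod_cast h
      · intro h; exact_mod_cast h
    rw [e1, ← Nat.div_lt_iff_lt_mul hm]
    constructor
    · intro h; exact_mod_cast h
    · intro h; exact_mod_cast h

lemma meas_noHit (h : IsSigns ξ P) (ℓ : ℕ → ℤ) (n N : ℕ) :
    MeasurableSet {ω | ∀ k ≤ N, diff ξ n k ω ≠ ℓ n} := by
  have : {ω | ∀ k ≤ N, diff ξ n k ω ≠ ℓ n}
      = ⋂ k ∈ Finset.range (N + 1), {ω | diff ξ n k ω = ℓ n}ᶜ := by
    ext ω; simp
  rw [this]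
  exact Finset.measurableSet_biInter _ fun k _ =>
    (measurable_diff h.meas n k (measurableSet_singleton (ℓ n))).compl

lemma tsum_pow_div {ρ : ℝ≥0∞} (hρ : ρ < 1) {m : ℕ} (hm : 0 < m) :
    ∑' j : ℕ, ρ ^ (j / m) ≠ ∞ := by
  have : NeZero m := ⟨hm.ne'⟩
  have h1 : ∑' j : ℕ, ρ ^ (j / m) = ∑' p : ℕ × Fin m, ρ ^ p.1 := by
    rw [← (Nat.divModEquiv m).tsum_eq (fun p : ℕ × Fin m => ρ ^ p.1)]
    rfl
  rw [h1, ENNReal.tsum_prod (f := fun (i : ℕ) (_ : Fin m) => ρ ^ i)]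
  simp only [tsum_fintype, Finset.sum_const, Finset.card_univ, Fintype.card_fin, nsmul_eq_mul]
  rw [ENNReal.tsum_mul_left, ENNReal.tsum_geometric]
  refine ENNReal.mul_ne_top (ENNReal.natCast_ne_top _) ?_
  rw [ENNReal.inv_ne_top]
  exact (tsub_pos_of_lt hρ).ne'

lemma lt_hit_mul (l : ℝ) {m : ℕ} (hm : 0 < m) (j : ℕ) (ω : Ω') :
    (j : ℝ≥0∞) < hitTime B l ω * m ↔ (((j : ℝ≥0) / m : ℝ≥0) : ℝ≥0∞) < hitTime B l ω := by
  have hm' : (m : ℝ≥0∞) ≠ 0 := by exact_mod_cast hm.ne'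
  have hm'' : (m : ℝ≥0) ≠ 0 := by exact_mod_cast hm.ne'
  rw [ENNReal.coe_div hm'']
  rw [ENNReal.div_lt_iff (Or.inl (by exact_mod_cast hm')) (Or.inl (by simp))]
  simp

lemma noHit_sub (ξ : ℕ → Ω → ℤ) (ℓ : ℕ → ℤ) (j n : ℕ) {m : ℕ} (hm : 0 < m) :
    {ω | ∀ k ≤ j * n / m, diff ξ n k ω ≠ ℓ n}
      ⊆ {ω | ∀ k ≤ 2 * (j / (2 * m)) * n, diff ξ n k ω ≠ ℓ n} := by
  intro ω hω k hk
  refine hω k (hk.trans ?_)
  rw [Nat.le_div_iff_mul_le hm]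
  calc 2 * (j / (2 * m)) * n * m = (2 * m * (j / (2 * m))) * n := by ring
    _ ≤ j * n := Nat.mul_le_mul_right _ (Nat.mul_div_le _ _)

theorem main_bounds (h : IsSigns ξ P) (hB : IsBrownianReal B P') {ℓ : ℕ → ℤ} {l : ℝ}
    (hl : Tendsto (fun n => (ℓ n : ℝ) / √n) atTop (𝓝 l)) (hpar : ∀ n : ℕ, 2 ∣ ℓ n - n)
    {m : ℕ} (hm : 0 < m) :
    ∃ s : ℕ → ℝ≥0∞, ∃ s' : ℝ≥0∞, s' ≠ ∞ ∧ Tendsto s atTop (𝓝 s') ∧
      (∀ᶠ n in atTop, (∫⁻ ω, kap ξ ℓ n ω ∂P) * m / n ≤ s n ∧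
        s n ≤ (∫⁻ ω, kap ξ ℓ n ω ∂P) * m / n + 1) ∧
      (∫⁻ ω, hitTime B l ω ∂P') * m ≤ s' ∧ s' ≤ (∫⁻ ω, hitTime B l ω ∂P') * m + 1 := by
  have hprob : IsProbabilityMeasure P' := hB.isGaussianProcess.isProbabilityMeasure
  have hprobP := h.prob
  have hm' : (m : ℝ≥0∞) ≠ 0 := by exact_mod_cast hm.ne'
  refine ⟨fun n => ∑' j : ℕ, P {ω | ∀ k ≤ j * n / m, diff ξ n k ω ≠ ℓ n},
    ∑' j : ℕ, P' {ω | (((j : ℝ≥0) / m : ℝ≥0) : ℝ≥0∞) < hitTime B l ω}, ?_, ?_, ?_, ?_⟩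
  · obtain ⟨ρ, hρ, htail⟩ := unif_tail h hB hl hpar
    have hb : ∀ j : ℕ, P' {ω | (((j : ℝ≥0) / m : ℝ≥0) : ℝ≥0∞) < hitTime B l ω}
        ≤ ρ ^ (j / (2 * m)) := by
      intro j
      refine le_of_tendsto (tendsto_noHit h hB hl hpar hm j) ?_
      filter_upwards [htail] with n hn
      exact (measure_mono (noHit_sub ξ ℓ j n hm)).trans (hn (j / (2 * m)))
    exact ne_top_of_le_ne_top (tsum_pow_div hρ (by positivity)) (ENNReal.tsum_le_tsum hb)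
  · obtain ⟨ρ, hρ, htail⟩ := unif_tail h hB hl hpar
    simp_rw [← lintegral_count]
    refine tendsto_lintegral_filter_of_dominated_convergence
      (fun j : ℕ => ρ ^ (j / (2 * m))) ?_ ?_ ?_ ?_
    · exact Eventually.of_forall fun n => measurable_of_countable _
    · filter_upwards [htail] with n hn
      refine Eventually.of_forall fun j => ?_
      exact (measure_mono (noHit_sub ξ ℓ j n hm)).trans (hn (j / (2 * m)))
    · rw [lintegral_count]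
      exact tsum_pow_div hρ (by positivity)
    · exact Eventually.of_forall fun j => tendsto_noHit h hB hl hpar hm j
  · filter_upwards [eventually_gt_atTop 0] with n hn
    have hn' : (n : ℝ≥0∞) ≠ 0 := by exact_mod_cast hn.ne'
    have e1 : (∫⁻ ω, kap ξ ℓ n ω ∂P) * m / n = ∫⁻ ω, kap ξ ℓ n ω * m / n ∂P := by
      simp_rw [ENNReal.div_eq_inv_mul]
      rw [lintegral_const_mul' _ _ (ENNReal.inv_ne_top.mpr hn'),
        lintegral_mul_const' _ _ (ENNReal.natCast_ne_top m)]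
    have e2 : ∀ j : ℕ, {ω | (j : ℝ≥0∞) < kap ξ ℓ n ω * m / n}
        = {ω | ∀ k ≤ j * n / m, diff ξ n k ω ≠ ℓ n} := fun j => by
      ext ω; exact lt_kap_iff' ℓ hn hm j ω
    have h1 := lintegral_count_bounds (m := P) (fun ω => kap ξ ℓ n ω * m / n) (fun j => by
      rw [e2 j]; exact (meas_noHit h ℓ n _).nullMeasurableSet)
    simp_rw [e2] at h1
    rw [e1]
    exact h1
  · have e1 : (∫⁻ ω, hitTime B l ω ∂P') * m = ∫⁻ ω, hitTime B l ω * m ∂P' := by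
      rw [lintegral_mul_const' _ _ (ENNReal.natCast_ne_top m)]
    have e2 : ∀ j : ℕ, {ω | (j : ℝ≥0∞) < hitTime B l ω * m}
        = {ω | (((j : ℝ≥0) / m : ℝ≥0) : ℝ≥0∞) < hitTime B l ω} := fun j => by
      ext ω; exact lt_hit_mul l hm j ω
    have h1 := lintegral_count_bounds (m := P') (fun ω => hitTime B l ω * m) (fun j => by
      rw [e2 j]; exact (prob_lt_hitTime hB hm j l).1)
    simp_rw [e2] at h1
    rw [e1]
    exact h1

theorem tendsto_kap (h : IsSigns ξ P) (hB : IsBrownianReal B P') {ℓ : ℕ → ℤ} {l : ℝ}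
    (hl : Tendsto (fun n => (ℓ n : ℝ) / √n) atTop (𝓝 l)) (hpar : ∀ n : ℕ, 2 ∣ ℓ n - n) :
    ∫⁻ ω, hitTime B l ω ∂P' ≠ ∞ ∧
    Tendsto (fun n : ℕ => (∫⁻ ω, kap ξ ℓ n ω ∂P) / n) atTop (𝓝 (∫⁻ ω, hitTime B l ω ∂P')) := by
  have hfin : ∫⁻ ω, hitTime B l ω ∂P' ≠ ∞ := by
    obtain ⟨s, s', hs', -, -, h1, -⟩ := main_bounds h hB hl hpar one_pos
    rw [Nat.cast_one, mul_one] at h1
    exact ne_top_of_le_ne_top hs' h1
  refine ⟨hfin, ?_⟩
  set L := ∫⁻ ω, hitTime B l ω ∂P' with hL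
  have hinv : Tendsto (fun m : ℕ => ((m + 1 : ℕ) : ℝ≥0∞)⁻¹) atTop (𝓝 0) :=
    (tendsto_add_atTop_iff_nat 1).mpr ENNReal.tendsto_inv_nat_nhds_zero
  have hdiv : ∀ (a : ℝ≥0∞) (m : ℕ), a * ((m + 1 : ℕ) : ℝ≥0∞) / ((m + 1 : ℕ) : ℝ≥0∞) = a :=
    fun a m => ENNReal.mul_div_cancel_right (by simp) (ENNReal.natCast_ne_top _)
  have hupper : limsup (fun n : ℕ => (∫⁻ ω, kap ξ ℓ n ω ∂P) / n) atTop ≤ L := by
    have h1 : ∀ m : ℕ, limsup (fun n : ℕ => (∫⁻ ω, kap ξ ℓ n ω ∂P) / n) atTop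
        ≤ L + ((m + 1 : ℕ) : ℝ≥0∞)⁻¹ := by
      intro m
      obtain ⟨s, s', hs', hlim, hn, h2, h3⟩ := main_bounds h hB hl hpar (Nat.succ_pos m)
      have h4 : ∀ᶠ n : ℕ in atTop, (∫⁻ ω, kap ξ ℓ n ω ∂P) / n ≤ s n / ((m + 1 : ℕ) : ℝ≥0∞) := by
        filter_upwards [hn] with n hn
        rw [ENNReal.le_div_iff_mul_le (Or.inl (by simp)) (Or.inl (ENNReal.natCast_ne_top _))]
        refine le_trans (le_of_eq ?_) hn.1
        rw [ENNReal.div_eq_inv_mul, ENNReal.div_eq_inv_mul, mul_assoc]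
      have h5 : Tendsto (fun n => s n / ((m + 1 : ℕ) : ℝ≥0∞)) atTop
          (𝓝 (s' / ((m + 1 : ℕ) : ℝ≥0∞))) :=
        ENNReal.Tendsto.div_const hlim (Or.inr (by simp))
      calc _ ≤ limsup (fun n => s n / ((m + 1 : ℕ) : ℝ≥0∞)) atTop := limsup_le_limsup h4
        _ = s' / ((m + 1 : ℕ) : ℝ≥0∞) := h5.limsup_eq
        _ ≤ (L * ((m + 1 : ℕ) : ℝ≥0∞) + 1) / ((m + 1 : ℕ) : ℝ≥0∞) := by gcongr
        _ = L + ((m + 1 : ℕ) : ℝ≥0∞)⁻¹ := by rw [ENNReal.add_div, hdiv, one_div]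
    have h6 := (tendsto_const_nhds (x := L)).add hinv
    rw [add_zero] at h6
    exact ge_of_tendsto' h6 h1
  have hlower : L ≤ liminf (fun n : ℕ => (∫⁻ ω, kap ξ ℓ n ω ∂P) / n) atTop := by
    have h1 : ∀ m : ℕ, L ≤ liminf (fun n : ℕ => (∫⁻ ω, kap ξ ℓ n ω ∂P) / n) atTop
        + ((m + 1 : ℕ) : ℝ≥0∞)⁻¹ := by
      intro m
      obtain ⟨s, s', hs', hlim, hn, h2, h3⟩ := main_bounds h hB hl hpar (Nat.succ_pos m)
      have h4 : ∀ᶠ n : ℕ in atTop, s n / ((m + 1 : ℕ) : ℝ≥0∞) ≤ (∫⁻ ω, kap ξ ℓ n ω ∂P) / n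
          + ((m + 1 : ℕ) : ℝ≥0∞)⁻¹ := by
        filter_upwards [hn] with n hn
        have h5 : (∫⁻ ω, kap ξ ℓ n ω ∂P) * ((m.succ : ℕ) : ℝ≥0∞) / n
            = (∫⁻ ω, kap ξ ℓ n ω ∂P) / n * ((m + 1 : ℕ) : ℝ≥0∞) := by
          rw [ENNReal.div_eq_inv_mul, ENNReal.div_eq_inv_mul, mul_assoc]
        calc s n / ((m + 1 : ℕ) : ℝ≥0∞)
            ≤ ((∫⁻ ω, kap ξ ℓ n ω ∂P) * ((m.succ : ℕ) : ℝ≥0∞) / n + 1) / ((m + 1 : ℕ) : ℝ≥0∞) := by
              gcongr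
              exact hn.2
          _ = _ := by rw [h5, ENNReal.add_div, hdiv, one_div]
      have h5 : Tendsto (fun n => s n / ((m + 1 : ℕ) : ℝ≥0∞)) atTop
          (𝓝 (s' / ((m + 1 : ℕ) : ℝ≥0∞))) :=
        ENNReal.Tendsto.div_const hlim (Or.inr (by simp))
      calc L = L * ((m + 1 : ℕ) : ℝ≥0∞) / ((m + 1 : ℕ) : ℝ≥0∞) := (hdiv L m).symm
        _ ≤ s' / ((m + 1 : ℕ) : ℝ≥0∞) := by gcongr
        _ = liminf (fun n => s n / ((m + 1 : ℕ) : ℝ≥0∞)) atTop := h5.liminf_eq.symm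
        _ ≤ liminf (fun n : ℕ => (∫⁻ ω, kap ξ ℓ n ω ∂P) / n + ((m + 1 : ℕ) : ℝ≥0∞)⁻¹) atTop :=
            liminf_le_liminf h4
        _ = _ := liminf_add_const atTop (fun n : ℕ => (∫⁻ ω, kap ξ ℓ n ω ∂P) / n) _
            (by isBoundedDefault) (by isBoundedDefault)
    have h6 := (tendsto_const_nhds
      (x := liminf (fun n : ℕ => (∫⁻ ω, kap ξ ℓ n ω ∂P) / n) atTop)).add hinv
    rw [add_zero] at h6
    exact ge_of_tendsto' h6 h1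
  exact tendsto_of_le_liminf_of_limsup_le hlower hupper

end Pool.Agent.H96.BR
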