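import Mathlib
import Pool.Agent.H96.BR.Fin

open MeasureTheory ProbabilityTheory Filter
open scoped ENNReal NNReal Topology

set_option linter.unusedSectionVars false

namespace Pool.Agent.H96.BR

/-- `λ_n`: `⌊λ√n⌋` if this has the parity of `n`, and `⌊λ√n⌋ + 1` otherwise. -/
noncomputable def lam (l : ℝ) (n : ℕ) : ℤ :=
  if 2 ∣ ⌊l * √n⌋ - (n : ℤ) then ⌊l * √n⌋ else ⌊l * √n⌋ + 1

/-- `T(BR^{λ,n}) = min {k ≥ n : RW_k - RW_{k-n} = λ_n}`, with value `∞` if there is no such `k`. -/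
noncomputable def waitTime {Ω : Type*} (ξ : ℕ → Ω → ℤ) (l : ℝ) (n : ℕ) (ω : Ω) : ℝ≥0∞ :=
  ⨅ (k : ℕ) (_ : n ≤ k ∧ walk ξ k ω - walk ξ (k - n) ω = lam l n), (k : ℝ≥0∞)

lemma lam_par (l : ℝ) (n : ℕ) : 2 ∣ lam l n - n := by
  unfold lam
  split_ifs with h
  · exact h
  · omega

lemma lam_lim (l : ℝ) : Tendsto (fun n : ℕ => (lam l n : ℝ) / √n) atTop (𝓝 l) := by
  have h1 : ∀ n : ℕ, l * √n - 1 ≤ lam l n ∧ (lam l n : ℝ) ≤ l * √n + 1 := by
    intro n
    have h2 := Int.floor_le (l * √n)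
    have h3 := Int.sub_one_lt_floor (l * √n)
    unfold lam
    split_ifs
    · constructor <;> linarith
    · push_cast
      constructor <;> linarith
  have h2 : Tendsto (fun n : ℕ => (√(n : ℝ))⁻¹) atTop (𝓝 0) :=
    tendsto_inv_atTop_zero.comp (Real.tendsto_sqrt_atTop.comp tendsto_natCast_atTop_atTop)
  have h3 := (tendsto_const_nhds (x := l)).sub h2
  have h4 := (tendsto_const_nhds (x := l)).add h2
  rw [sub_zero] at h3
  rw [add_zero] at h4
  refine tendsto_of_tendsto_of_tendsto_of_le_of_le' h3 h4 ?_ ?_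
  · filter_upwards [eventually_gt_atTop 0] with n hn
    have hs : 0 < √(n : ℝ) := by positivity
    rw [le_div_iff₀ hs, sub_mul, inv_mul_cancel₀ hs.ne']
    exact (h1 n).1
  · filter_upwards [eventually_gt_atTop 0] with n hn
    have hs : 0 < √(n : ℝ) := by positivity
    rw [div_le_iff₀ hs, add_mul, inv_mul_cancel₀ hs.ne']
    exact (h1 n).2

lemma waitTime_eq {Ω : Type*} (ξ : ℕ → Ω → ℤ) (l : ℝ) (n : ℕ) (ω : Ω) :
    waitTime ξ l n ω = n + kap ξ (lam l) n ω := by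
  refine le_antisymm ?_ ?_
  · by_cases h1 : ∃ k, diff ξ n k ω = lam l n
    · have h2 : kap ξ (lam l) n ω = ((Nat.find h1 : ℕ) : ℝ≥0∞) := by
        refine le_antisymm (iInf₂_le_of_le (Nat.find h1) (Nat.find_spec h1) le_rfl) ?_
        refine le_iInf₂ fun k hk => ?_
        exact_mod_cast Nat.find_min' h1 hk
      rw [h2]
      refine iInf₂_le_of_le (Nat.find h1 + n) ⟨Nat.le_add_left _ _, ?_⟩ ?_
      · rw [Nat.add_sub_cancel]
        exact Nat.find_spec h1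
      · push_cast
        rw [add_comm]
    · have h2 : kap ξ (lam l) n ω = ∞ := by
        push Not at h1
        unfold kap
        simp [h1]
      rw [h2]
      simp
  · refine le_iInf₂ fun k hk => ?_
    have h1 : kap ξ (lam l) n ω ≤ ((k - n : ℕ) : ℝ≥0∞) := by
      refine iInf₂_le_of_le (k - n) ?_ le_rfl
      unfold diff
      rw [Nat.sub_add_cancel hk.1]
      exact hk.2
    calc (n : ℝ≥0∞) + kap ξ (lam l) n ω ≤ n + ((k - n : ℕ) : ℝ≥0∞) := by gcongr
      _ = k := by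
        rw [← Nat.cast_add, Nat.add_sub_cancel' hk.1]

theorem main {Ω Ω' : Type*} [MeasurableSpace Ω] [MeasurableSpace Ω'] {P : Measure Ω}
    {P' : Measure Ω'} {ξ : ℕ → Ω → ℤ} (hξ : IsSigns ξ P) {B : ℝ≥0 → Ω' → ℝ}
    (hB : IsBrownianReal B P') (l : ℝ) :
    ∫⁻ ω, hitTime B l ω ∂P' < ∞ ∧
      Tendsto (fun n : ℕ => (∫⁻ ω, waitTime ξ l n ω ∂P) / n) atTop
        (𝓝 (1 + ∫⁻ ω, hitTime B l ω ∂P')) := by
  have hprob := hξ.prob
  obtain ⟨h1, h2⟩ := tendsto_kap hξ hB (lam_lim l) (lam_par l)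
  refine ⟨h1.lt_top, ?_⟩
  have h3 := (tendsto_const_nhds (x := (1 : ℝ≥0∞))).add h2
  refine h3.congr' ?_
  filter_upwards [eventually_gt_atTop 0] with n hn
  have hn' : (n : ℝ≥0∞) ≠ 0 := by exact_mod_cast hn.ne'
  simp_rw [waitTime_eq]
  rw [lintegral_add_left measurable_const, lintegral_const, measure_univ, mul_one,
    ENNReal.add_div, ENNReal.div_self hn' (ENNReal.natCast_ne_top n)]

end Pool.Agent.H96.BR
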